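import Mathlib
import Pool.Agent.T2H12.KD.Main

/-!
# Products and sums of bounded dilates: one exponent governs both
-/

set_option autoImplicit false

namespace Pool.Agent.Results.MP_120218_co.BoundedDilates

open Finset
open Pool.Agent.Y359.PE Pool.Agent.T2H12.KF Pool.Agent.T2H12.KD

/-- The set of the products of `k` elements of `A`. -/
def prodSet (k : ℕ) (A : Finset ℤ) : Finset ℤ :=
  (Fintype.piFinset fun _ : Fin k => A).image fun f => ∏ i, f i

/-- The set of the sums of `k` elements of `A`. -/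
def sumSet (k : ℕ) (A : Finset ℤ) : Finset ℤ :=
  (Fintype.piFinset fun _ : Fin k => A).image fun f => ∑ i, f i

/-- The union `A ∪ 2 A ∪ ... ∪ K A` of the dilates of `A` by `1, ..., K`. -/
def dilates (K : ℕ) (A : Finset ℤ) : Finset ℤ :=
  (Finset.Icc 1 K ×ˢ A).image fun s => (s.1 : ℤ) * s.2

/-- The sum of dilates `l 0 A + l 1 A + ... + l (k - 1) A`. -/
def dilateSum (k : ℕ) (l : ℕ → ℕ) (A : Finset ℤ) : Finset ℤ :=
  (Fintype.piFinset fun _ : Fin k => A).image fun f => ∑ i : Fin k, (l (i : ℕ) : ℤ) * f i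

/-- The set of all `l * a + b` with `a` in `A` and `b` in `B`. -/
def dilateAdd (l : ℕ) (A B : Finset ℤ) : Finset ℤ :=
  (A ×ˢ B).image fun s => (l : ℤ) * s.1 + s.2

/-- the iterated sums of dilates -/
def vv (g : Finset ℤ → ℕ) (A : Finset ℤ) : ℕ → Finset ℤ
  | 0 => {0}
  | k + 1 => dilateAdd (if k = 0 then 1 else g (vv g A k)) A (vv g A k)

/-- the multipliers -/
def ml (g : Finset ℤ → ℕ) (A : Finset ℤ) (k : ℕ) : ℕ := if k = 0 then 1 else g (vv g A k)

lemma vv_succ (g : Finset ℤ → ℕ) (A : Finset ℤ) (k : ℕ) :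
    vv g A (k + 1) = dilateAdd (ml g A k) A (vv g A k) := rfl

lemma mem_dilateAdd {l : ℕ} {A B : Finset ℤ} {x : ℤ} :
    x ∈ dilateAdd l A B ↔ ∃ a ∈ A, ∃ b ∈ B, (l : ℤ) * a + b = x := by
  unfold dilateAdd
  rw [mem_image]
  constructor
  · rintro ⟨s, hs, rfl⟩
    exact ⟨s.1, (mem_product.1 hs).1, s.2, (mem_product.1 hs).2, rfl⟩
  · rintro ⟨a, ha, b, hb, rfl⟩
    exact ⟨(a, b), mem_product.2 ⟨ha, hb⟩, rfl⟩

lemma dilateAdd_mono {l : ℕ} {A A' B : Finset ℤ} (h : A ⊆ A') :
    dilateAdd l A B ⊆ dilateAdd l A' B := by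
  intro x hx
  rw [mem_dilateAdd] at hx ⊢
  obtain ⟨a, ha, b, hb, rfl⟩ := hx
  exact ⟨a, h ha, b, hb, rfl⟩

lemma dilateSum_mono {k : ℕ} {l : ℕ → ℕ} {A A' : Finset ℤ} (h : A ⊆ A') :
    dilateSum k l A ⊆ dilateSum k l A' :=
  image_subset_image (Fintype.piFinset_subset _ _ fun _ => h)

lemma prodSet_mono {k : ℕ} {A A' : Finset ℤ} (h : A ⊆ A') : prodSet k A ⊆ prodSet k A' :=
  image_subset_image (Fintype.piFinset_subset _ _ fun _ => h)

lemma dilateAdd_nonempty {l : ℕ} {A B : Finset ℤ} (hA : A.Nonempty) (hB : B.Nonempty) :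
    (dilateAdd l A B).Nonempty := (hA.product hB).image _

lemma vv_nonempty (g : Finset ℤ → ℕ) {A : Finset ℤ} (hA : A.Nonempty) (k : ℕ) :
    (vv g A k).Nonempty := by
  induction k with
  | zero => exact singleton_nonempty 0
  | succ k ih => exact dilateAdd_nonempty hA ih

lemma vv_one (g : Finset ℤ → ℕ) (A : Finset ℤ) : vv g A 1 = A := by
  ext x
  rw [vv_succ, mem_dilateAdd]
  have h1 : ml g A 0 = 1 := by simp [ml]
  have h2 : vv g A 0 = {0} := rfl
  rw [h1, h2]
  constructor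
  · rintro ⟨a, ha, b, hb, rfl⟩
    rw [mem_singleton] at hb
    rw [hb]
    simpa using ha
  · intro hx
    exact ⟨x, hx, 0, mem_singleton_self 0, by simp⟩

lemma vv_sub (g : Finset ℤ → ℕ) (A : Finset ℤ) (k : ℕ) :
    vv g A k ⊆ dilateSum k (ml g A) A := by
  induction k with
  | zero =>
    intro x hx
    have h2 : vv g A 0 = {0} := rfl
    rw [h2, mem_singleton] at hx
    unfold dilateSum
    rw [mem_image]
    exact ⟨fun i => Fin.elim0 i, Fintype.mem_piFinset.2 fun i => Fin.elim0 i, by simp [hx]⟩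
  | succ k ih =>
    intro x hx
    rw [vv_succ, mem_dilateAdd] at hx
    obtain ⟨a, ha, b, hb, rfl⟩ := hx
    have h1 := ih hb
    unfold dilateSum at h1 ⊢
    rw [mem_image] at h1 ⊢
    obtain ⟨f, hf, rfl⟩ := h1
    refine ⟨Fin.snoc f a, Fintype.mem_piFinset.2 fun i => ?_, ?_⟩
    · refine Fin.lastCases ?_ (fun j => ?_) i
      · simpa using ha
      · simpa using Fintype.mem_piFinset.1 hf j
    · rw [Fin.sum_univ_castSucc]
      simp only [Fin.snoc_castSucc, Fin.snoc_last, Fin.val_castSucc, Fin.val_last]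
      ring

lemma vv_card_le (g : Finset ℤ → ℕ) (A : Finset ℤ) (k : ℕ) : (vv g A k).card ≤ A.card ^ k := by
  induction k with
  | zero =>
    have h2 : vv g A 0 = {0} := rfl
    rw [h2]
    simp
  | succ k ih =>
    rw [vv_succ]
    calc (dilateAdd (ml g A k) A (vv g A k)).card ≤ (A ×ˢ vv g A k).card := card_image_le
      _ = A.card * (vv g A k).card := card_product _ _
      _ ≤ A.card * A.card ^ k := Nat.mul_le_mul_left _ ih
      _ = _ := by ring

lemma prodSet_eq (k : ℕ) (A : Finset ℤ) : (prodSet k A).card = (pk k A).card := rfl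

/-- One exponent for the product sets and the sums of bounded dilates. -/
theorem base (m : ℕ) (ε : ℝ) (hε : 0 < ε) : ∃ (K : ℕ) (c : ℝ), 0 < c ∧
    ∀ A : Finset ℤ, A.Nonempty → ∃ γ : ℝ, 0 ≤ γ ∧ γ ≤ 1 ∧
      (∀ B : Finset ℤ, B.Nonempty → ∃ l : ℕ, 1 ≤ l ∧ l ≤ K ∧
        c * (A.card : ℝ) ^ (γ - ε) * (B.card : ℝ) ^ (1 - ε) ≤ (dilateAdd l A B).card) ∧
      ∃ l : ℕ → ℕ, l 0 = 1 ∧ (∀ i, 1 ≤ l i ∧ l i ≤ K) ∧ ∀ k : ℕ, 1 ≤ k → k ≤ m →
        c * (A.card : ℝ) ^ ((k : ℝ) - (k - 1) * γ - ε) ≤ (prodSet k A).card ∧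
        c * (A.card : ℝ) ^ (1 + ((k : ℝ) - 1) * γ - ε) ≤ (dilateSum k l A).card ∧
        c * (A.card : ℝ) ^ ((k : ℝ) + 1 - ε) ≤
          ((prodSet k A).card : ℝ) * (dilateSum k l A).card := by
  set M : ℕ := m + 1 with hM
  have hMr : (1 : ℝ) ≤ M := by
    rw [hM]
    push_cast
    linarith [show (0 : ℝ) ≤ m from Nat.cast_nonneg m]
  set ε' : ℝ := min 1 ε / 2 with hε'
  have hmin : 0 < min 1 ε := lt_min one_pos hε
  have hε'0 : 0 < ε' := by positivity
  have hε'1 : ε' ≤ 1 / 2 := by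
    have := min_le_left 1 ε
    rw [hε']
    linarith
  have hε'2 : 2 * ε' ≤ ε := by
    have := min_le_right 1 ε
    rw [hε']
    linarith
  set η : ℝ := ε' / (M * (M + 1)) with hη
  have hη0 : 0 < η := by positivity
  have hηε : η * (M * (M + 1)) = ε' := by
    rw [hη]
    field_simp
  have hηε' : η ≤ ε' := by
    rw [← hηε]
    have h1 : (1 : ℝ) ≤ M * (M + 1) := by nlinarith
    nlinarith
  obtain ⟨K, B₀, hB₀, hmain⟩ := main M (by omega) hη0 (by linarith : η ≤ 1)
  have hl2 : 0 < Real.log 2 := Real.log_pos (by norm_num)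
  set c' : ℝ := (M + 1) * (B₀ + Real.log 2) with hc'
  have hc'0 : 0 ≤ c' := by positivity
  refine ⟨max K 1, Real.exp (-(2 * c')), Real.exp_pos _, ?_⟩
  have hc1 : Real.exp (-(2 * c')) ≤ 1 := Real.exp_le_one_iff.2 (by linarith)
  intro A hA
  have hAc : (1 : ℝ) ≤ A.card := by exact_mod_cast card_pos.2 hA
  have hpn : ∀ k, (prodSet k A).Nonempty := by
    intro k
    obtain ⟨a, ha⟩ := hA
    exact ⟨_, mem_image_of_mem _ (Fintype.mem_piFinset.2 fun _ => ha)⟩
  have hdn : ∀ k l, (dilateSum k l A).Nonempty := by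
    intro k l
    obtain ⟨a, ha⟩ := hA
    exact ⟨_, mem_image_of_mem _ (Fintype.mem_piFinset.2 fun _ => ha)⟩
  have hpc : ∀ k, (1 : ℝ) ≤ (prodSet k A).card := fun k => by exact_mod_cast card_pos.2 (hpn k)
  have hdc : ∀ k l, (1 : ℝ) ≤ (dilateSum k l A).card :=
    fun k l => by exact_mod_cast card_pos.2 (hdn k l)
  rcases Nat.lt_or_ge A.card 2 with h2 | h2
  · -- one element
    have hA1 : A.card = 1 := by
      have := card_pos.2 hA
      omega
    refine ⟨0, le_rfl, zero_le_one, ?_, fun _ => 1, rfl, fun _ => ⟨le_rfl, le_max_right _ _⟩, ?_⟩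
    · intro B hB
      refine ⟨1, le_rfl, le_max_right _ _, ?_⟩
      have hBc : (1 : ℝ) ≤ B.card := by exact_mod_cast card_pos.2 hB
      rw [hA1, Nat.cast_one, Real.one_rpow, mul_one]
      have h3 : (B.card : ℝ) ≤ (dilateAdd 1 A B).card := by
        obtain ⟨a, ha⟩ := hA
        have h4 : (B.image fun b => a + b).card = B.card :=
          card_image_of_injective _ fun y z h => add_left_cancel h
        have h5 : (B.image fun b => a + b) ⊆ dilateAdd 1 A B := by
          intro x hx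
          obtain ⟨b, hb, rfl⟩ := mem_image.1 hx
          exact mem_dilateAdd.2 ⟨a, ha, b, hb, by simp⟩
        rw [← h4]
        exact_mod_cast card_le_card h5
      have h4 : (B.card : ℝ) ^ (1 - ε) ≤ (B.card : ℝ) ^ (1 : ℝ) :=
        Real.rpow_le_rpow_of_exponent_le hBc (by linarith)
      rw [Real.rpow_one] at h4
      calc Real.exp (-(2 * c')) * (B.card : ℝ) ^ (1 - ε) ≤ 1 * B.card :=
            mul_le_mul hc1 h4 (by positivity) zero_le_one
        _ ≤ _ := by rw [one_mul]; exact h3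
    · intro k _ _
      rw [hA1, Nat.cast_one, Real.one_rpow, Real.one_rpow, Real.one_rpow, mul_one]
      refine ⟨hc1.trans (hpc k), hc1.trans (hdc k _), hc1.trans ?_⟩
      have h3 := hpc k
      have h4 := hdc k fun _ => 1
      nlinarith
  -- the main case
  have hA2 : (2 : ℝ) ≤ A.card := by exact_mod_cast h2
  have hA0 : (0 : ℝ) < A.card := by linarith
  set a := Real.log A.card with ha
  have ha0 : 0 < a := Real.log_pos (by linarith)
  set A₀ := A.erase 0 with hA₀
  have hsub : A₀ ⊆ A := erase_subset _ _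
  have hcard : A.card ≤ 2 * A₀.card := by
    have := pred_card_le_card_erase (s := A) (a := 0)
    rw [← hA₀] at this
    omega
  have hA₀p : 0 < A₀.card := by omega
  have hA₀n : A₀.Nonempty := card_pos.1 hA₀p
  have hA₀0 : (0 : ℤ) ∉ A₀ := notMem_erase _ _
  have hA₀r : (0 : ℝ) < A₀.card := by exact_mod_cast hA₀p
  obtain ⟨H₁, hH0, hH1, hprod, hsum⟩ := hmain A₀ hA₀n hA₀0
  set a₀ := Real.log A₀.card with ha₀
  have ha₀0 : 0 ≤ a₀ := log_card_nonneg A₀
  have ha₀a : a₀ ≤ a := Real.log_le_log hA₀r (by exact_mod_cast card_le_card hsub)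
  have haa₀ : a - Real.log 2 ≤ a₀ := by
    have h3 : (A.card : ℝ) ≤ 2 * A₀.card := by exact_mod_cast hcard
    have h4 := Real.log_le_log hA0 h3
    rw [Real.log_mul (by norm_num) hA₀r.ne'] at h4
    linarith
  have hγ : H₁ / a * a = H₁ := by field_simp
  have hηa : η * a₀ ≤ ε' * a := mul_le_mul hηε' ha₀a ha₀0 hε'0.le
  have hBc' : B₀ + Real.log 2 ≤ c' := by
    have : 0 ≤ (M : ℝ) * (B₀ + Real.log 2) := by positivity
    rw [hc']
    linarith
  -- from logarithms to powers
  have conv : ∀ (x : ℝ) (n : ℕ), 0 < n → x * a - c' ≤ Real.log n →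
      Real.exp (-c') * (A.card : ℝ) ^ x ≤ n := by
    intro x n hn hx
    have hnr : (0 : ℝ) < n := by exact_mod_cast hn
    rw [← Real.log_le_log_iff (mul_pos (Real.exp_pos _) (Real.rpow_pos_of_pos hA0 _)) hnr,
      Real.log_mul (Real.exp_pos _).ne' (Real.rpow_pos_of_pos hA0 _).ne', Real.log_exp,
      Real.log_rpow hA0]
    linarith
  have hexp : Real.exp (-(2 * c')) = Real.exp (-c') * Real.exp (-c') := by
    rw [← Real.exp_add]
    congr 1
    ring
  have hexp1 : Real.exp (-c') ≤ 1 := Real.exp_le_one_iff.2 (by linarith)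
  have hexp2 : Real.exp (-(2 * c')) ≤ Real.exp (-c') := Real.exp_le_exp.2 (by linarith)
  choose! g hg1 hg2 hg3 using hsum
  refine ⟨H₁ / a, by positivity, ?_, ?_, fun k => if k = 0 then 1 else ml g A₀ k, by simp, ?_, ?_⟩
  · rw [div_le_one ha0]
    linarith
  · -- sums with an arbitrary set
    intro B hB
    have hBc : (1 : ℝ) ≤ B.card := by exact_mod_cast card_pos.2 hB
    have hBr : (0 : ℝ) < B.card := by linarith
    have hlB : 0 ≤ Real.log B.card := Real.log_nonneg hBc
    refine ⟨g B, hg1 B hB, (hg2 B hB).trans (le_max_left _ _), ?_⟩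
    have h3 := hg3 B hB
    have h4 : (dilateAdd (g B) A₀ B).card ≤ (dilateAdd (g B) A B).card :=
      card_le_card (dilateAdd_mono hsub)
    have h4' : ((dilateAdd (g B) A₀ B).card : ℝ) ≤ (dilateAdd (g B) A B).card := by
      exact_mod_cast h4
    refine le_trans ?_ h4'
    have h5 : (0 : ℝ) < (dilateAdd (g B) A₀ B).card := by
      exact_mod_cast card_pos.2 (dilateAdd_nonempty hA₀n hB)
    have h6 := Real.rpow_pos_of_pos hA0 (H₁ / a - ε)
    have h7 := Real.rpow_pos_of_pos hBr (1 - ε)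
    rw [← Real.log_le_log_iff (mul_pos (mul_pos (Real.exp_pos _) h6) h7) h5,
      Real.log_mul (mul_pos (Real.exp_pos _) h6).ne' h7.ne',
      Real.log_mul (Real.exp_pos _).ne' h6.ne', Real.log_exp, Real.log_rpow hA0,
      Real.log_rpow hBr]
    have h8 : Real.log ((dilateAdd (g B) A₀ B).card : ℝ) =
        Real.log ((A₀ ×ˢ B).image fun s => ((g B : ℕ) : ℤ) * s.1 + s.2).card := rfl
    rw [h8]
    refine le_trans ?_ h3
    have h9 : (H₁ / a - ε) * a = H₁ - ε * a := by
      rw [sub_mul, hγ]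
    change -(2 * c') + (H₁ / a - ε) * a + (1 - ε) * Real.log B.card ≤ _
    rw [h9]
    have h10 : η * (a₀ + Real.log B.card) ≤ ε' * a + ε' * Real.log B.card := by
      have := mul_le_mul_of_nonneg_right hηε' hlB
      linarith
    have h11 : ε' * a ≤ ε * a := mul_le_mul_of_nonneg_right (by linarith) ha0.le
    have h12 : ε' * Real.log B.card ≤ ε * Real.log B.card :=
      mul_le_mul_of_nonneg_right (by linarith) hlB
    linarith
  · intro k
    by_cases hk : k = 0
    · simp [hk]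
    · have h3 := vv_nonempty g hA₀n k
      have h4 : ml g A₀ k = g (vv g A₀ k) := by
        unfold ml
        rw [if_neg hk]
      simp only [if_neg hk]
      rw [h4]
      exact ⟨hg1 _ h3, (hg2 _ h3).trans (le_max_left _ _)⟩
  · intro k hk hkm
    have hkr : (1 : ℝ) ≤ k := by exact_mod_cast hk
    have hkM : (k : ℝ) ≤ M := by
      have : k ≤ M := by omega
      exact_mod_cast this
    have hml : (fun k => if k = 0 then 1 else ml g A₀ k) = ml g A₀ := by
      funext j
      by_cases hj : j = 0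
      · simp [hj, ml]
      · rw [if_neg hj]
    rw [hml]
    -- the products
    have hP : ((k : ℝ) - (k - 1) * (H₁ / a) - ε') * a - c' ≤ Real.log (prodSet k A).card := by
      have h3 := hprod k hk (by omega)
      rw [← prodSet_eq] at h3
      have h4 : Real.log (prodSet k A₀).card ≤ Real.log (prodSet k A).card := by
        refine Real.log_le_log ?_ ?_
        · obtain ⟨x, hx⟩ := hA₀n
          have : (prodSet k A₀).Nonempty :=
            ⟨_, mem_image_of_mem _ (Fintype.mem_piFinset.2 fun _ => hx)⟩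
          exact_mod_cast card_pos.2 this
        · exact_mod_cast card_le_card (prodSet_mono hsub)
      have h5 : ((k : ℝ) - (k - 1) * (H₁ / a) - ε') * a =
          k * a - (k - 1) * H₁ - ε' * a := by
        rw [sub_mul, sub_mul, mul_assoc, hγ]
      rw [h5]
      have h6 : (k : ℝ) * (a - Real.log 2) ≤ k * a₀ := mul_le_mul_of_nonneg_left haa₀ (by linarith)
      have h7 : (k : ℝ) * Real.log 2 + B₀ ≤ c' := by
        have h8 : (k : ℝ) * Real.log 2 ≤ M * Real.log 2 := mul_le_mul_of_nonneg_right hkM hl2.le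
        have h9 : 0 ≤ (M : ℝ) * B₀ := by positivity
        rw [hc']
        linarith
      linarith
    -- the sums
    have hS : (1 + ((k : ℝ) - 1) * (H₁ / a) - ε') * a - c' ≤
        Real.log (dilateSum k (ml g A₀) A).card := by
      have key : ∀ j : ℕ, 1 ≤ j → j ≤ k → a₀ + ((j : ℝ) - 1) * (H₁ - η * ((M + 1) * a₀) - B₀) ≤
          Real.log (vv g A₀ j).card := by
        intro j hj
        induction j, hj using Nat.le_induction with
        | base =>
          intro _
          rw [vv_one, Nat.cast_one, sub_self, zero_mul, add_zero]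
        | succ j hj ih =>
          intro hjk
          have h3 := ih (by omega)
          have hvn := vv_nonempty g hA₀n j
          have h4 := hg3 _ hvn
          have h5 : ml g A₀ j = g (vv g A₀ j) := by
            unfold ml
            rw [if_neg (by omega)]
          have h6 : Real.log (vv g A₀ (j + 1)).card =
              Real.log ((A₀ ×ˢ vv g A₀ j).image fun s =>
                ((g (vv g A₀ j) : ℕ) : ℤ) * s.1 + s.2).card := by
            rw [vv_succ, h5]
            rfl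
          rw [h6]
          refine le_trans ?_ h4
          have h7 : Real.log (vv g A₀ j).card ≤ M * a₀ := by
            have h8 : ((vv g A₀ j).card : ℝ) ≤ (A₀.card : ℝ) ^ j := by
              exact_mod_cast vv_card_le g A₀ j
            have h9 := Real.log_le_log (by exact_mod_cast card_pos.2 hvn) h8
            rw [Real.log_pow] at h9
            refine h9.trans (mul_le_mul_of_nonneg_right ?_ ha₀0)
            have : j ≤ M := by omega
            exact_mod_cast this
          have h8 : η * (a₀ + Real.log (vv g A₀ j).card) ≤ η * ((M + 1) * a₀) :=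
            mul_le_mul_of_nonneg_left (by linarith) hη0.le
          push_cast
          linarith
      have h3 := key k hk le_rfl
      have h4 : Real.log (vv g A₀ k).card ≤ Real.log (dilateSum k (ml g A₀) A).card := by
        refine Real.log_le_log (by exact_mod_cast card_pos.2 (vv_nonempty g hA₀n k)) ?_
        exact_mod_cast card_le_card ((vv_sub g A₀ k).trans (dilateSum_mono hsub))
      refine le_trans ?_ (h3.trans h4)
      have h5 : (1 + ((k : ℝ) - 1) * (H₁ / a) - ε') * a = a + (k - 1) * H₁ - ε' * a := by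
        rw [sub_mul, add_mul, mul_assoc, hγ]
        ring
      rw [h5]
      have h6 : ((k : ℝ) - 1) * (η * ((M + 1) * a₀)) ≤ ε' * a := by
        have h7 : ((k : ℝ) - 1) * (η * ((M + 1) * a₀)) ≤ M * (η * ((M + 1) * a₀)) :=
          mul_le_mul_of_nonneg_right (by linarith) (by positivity)
        have h8 : M * (η * ((M + 1) * a₀)) = ε' * a₀ := by
          rw [← hηε]
          ring
        have h9 := mul_le_mul_of_nonneg_left ha₀a hε'0.le
        linarith
      have h7 : ((k : ℝ) - 1) * B₀ ≤ M * B₀ := mul_le_mul_of_nonneg_right (by linarith) hB₀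
      have h8 : (M : ℝ) * B₀ + Real.log 2 ≤ c' := by
        have h9 : 0 ≤ (M : ℝ) * Real.log 2 := by positivity
        rw [hc']
        linarith
      linarith
    have hPc := conv _ _ (card_pos.2 (hpn k)) hP
    have hSc := conv _ _ (card_pos.2 (hdn k (ml g A₀))) hS
    have mono : ∀ x y : ℝ, x ≤ y → (A.card : ℝ) ^ x ≤ (A.card : ℝ) ^ y :=
      fun x y hxy => Real.rpow_le_rpow_of_exponent_le hAc hxy
    refine ⟨?_, ?_, ?_⟩
    · refine le_trans (mul_le_mul hexp2 (mono _ _ (by linarith)) (by positivity)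
        (Real.exp_pos _).le) hPc
    · refine le_trans (mul_le_mul hexp2 (mono _ _ (by linarith)) (by positivity)
        (Real.exp_pos _).le) hSc
    · refine le_trans ?_ (mul_le_mul hPc hSc (by positivity) (by linarith [hpc k]))
      have h3 : Real.exp (-c') * (A.card : ℝ) ^ ((k : ℝ) - (k - 1) * (H₁ / a) - ε') *
          (Real.exp (-c') * (A.card : ℝ) ^ (1 + ((k : ℝ) - 1) * (H₁ / a) - ε')) =
          Real.exp (-(2 * c')) * (A.card : ℝ) ^ ((k : ℝ) + 1 - 2 * ε') := by
        rw [hexp]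
        have h4 : (k : ℝ) + 1 - 2 * ε' = ((k : ℝ) - (k - 1) * (H₁ / a) - ε') +
            (1 + ((k : ℝ) - 1) * (H₁ / a) - ε') := by ring
        rw [h4, Real.rpow_add hA0]
        ring
      rw [h3]
      exact mul_le_mul_of_nonneg_left (mono _ _ (by linarith)) (Real.exp_pos _).le

lemma dilateSum_sub {k K : ℕ} {l : ℕ → ℕ} (hl : ∀ i, 1 ≤ l i ∧ l i ≤ K) (A : Finset ℤ) :
    dilateSum k l A ⊆ sumSet k (dilates K A) := by
  intro x hx
  obtain ⟨f, hf, rfl⟩ := mem_image.1 hx
  refine mem_image.2 ⟨fun i => (l (i : ℕ) : ℤ) * f i, Fintype.mem_piFinset.2 fun i => ?_, rfl⟩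
  exact mem_image.2 ⟨(l (i : ℕ), f i), mem_product.2 ⟨mem_Icc.2 (hl _),
    Fintype.mem_piFinset.1 hf i⟩, rfl⟩

lemma subset_dilates {K : ℕ} (hK : 1 ≤ K) (A : Finset ℤ) : A ⊆ dilates K A := fun a ha =>
  mem_image.2 ⟨(1, a), mem_product.2 ⟨mem_Icc.2 ⟨le_rfl, hK⟩, ha⟩, by simp⟩

lemma dilates_card_le (K : ℕ) (A : Finset ℤ) : (dilates K A).card ≤ K * A.card := by
  refine card_image_le.trans ?_
  rw [card_product, Nat.card_Icc, Nat.add_sub_cancel]

/-- **One exponent for the product sets and the sums of bounded dilates.** -/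
theorem result (m : ℕ) (ε : ℝ) (hε : 0 < ε) : ∃ (K : ℕ) (c : ℝ), 0 < c ∧
    ∀ A : Finset ℤ, A.Nonempty → (∃ γ : ℝ, 0 ≤ γ ∧ γ ≤ 1 ∧
      (∀ B : Finset ℤ, B.Nonempty → ∃ l : ℕ, 1 ≤ l ∧ l ≤ K ∧
        c * (A.card : ℝ) ^ (γ - ε) * (B.card : ℝ) ^ (1 - ε) ≤ (dilateAdd l A B).card) ∧
      ∃ l : ℕ → ℕ, l 0 = 1 ∧ (∀ i, 1 ≤ l i ∧ l i ≤ K) ∧ ∀ k : ℕ, 1 ≤ k → k ≤ m →
        c * (A.card : ℝ) ^ ((k : ℝ) - (k - 1) * γ - ε) ≤ (prodSet k A).card ∧
        c * (A.card : ℝ) ^ (1 + ((k : ℝ) - 1) * γ - ε) ≤ (dilateSum k l A).card ∧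
        c * (A.card : ℝ) ^ ((k : ℝ) + 1 - ε) ≤
          ((prodSet k A).card : ℝ) * (dilateSum k l A).card) ∧
      ∀ k : ℕ, 1 ≤ k → k ≤ m → c * ((dilates K A).card : ℝ) ^ ((k : ℝ) + 1 - ε) ≤
        ((prodSet k (dilates K A)).card : ℝ) * (sumSet k (dilates K A)).card := by
  obtain ⟨K, c, hc, H⟩ := base m ε hε
  set K' : ℕ := max K 1 with hK'
  have hK1 : 1 ≤ K' := le_max_right _ _
  have hKK : K ≤ K' := le_max_left _ _
  have hKr : (1 : ℝ) ≤ K' := by exact_mod_cast hK1
  have hK0 : (0 : ℝ) < K' := by linarith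
  have hKk : (1 : ℝ) ≤ (K' : ℝ) ^ (m + 1) := one_le_pow₀ hKr
  have hcc : c / (K' : ℝ) ^ (m + 1) ≤ c := div_le_self hc.le hKk
  have hw : ∀ x y : ℝ, 0 ≤ x → c * x ≤ y → c / (K' : ℝ) ^ (m + 1) * x ≤ y := fun x y hx hxy =>
    (mul_le_mul_of_nonneg_right hcc hx).trans hxy
  refine ⟨K', c / (K' : ℝ) ^ (m + 1), by positivity, fun A hA => ?_⟩
  obtain ⟨γ, hγ0, hγ1, h1, l, hl0, hl, h2⟩ := H A hA
  have hAc : (1 : ℝ) ≤ A.card := by exact_mod_cast card_pos.2 hA
  have hA0 : (0 : ℝ) < A.card := by linarith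
  refine ⟨⟨γ, hγ0, hγ1, fun B hB => ?_, l, hl0, fun i => ⟨(hl i).1, (hl i).2.trans hKK⟩,
    fun k hk hkm => ?_⟩, fun k hk hkm => ?_⟩
  · obtain ⟨l', hl1, hl2, h3⟩ := h1 B hB
    refine ⟨l', hl1, hl2.trans hKK, ?_⟩
    rw [mul_assoc] at h3 ⊢
    exact hw _ _ (by positivity) h3
  · obtain ⟨h3, h4, h5⟩ := h2 k hk hkm
    exact ⟨hw _ _ (by positivity) h3, hw _ _ (by positivity) h4, hw _ _ (by positivity) h5⟩
  · obtain ⟨-, -, h5⟩ := h2 k hk hkm
    have hAX' : (A.card : ℝ) ≤ (dilates K' A).card := by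
      exact_mod_cast card_le_card (subset_dilates hK1 A)
    have hXA : ((dilates K' A).card : ℝ) ≤ K' * A.card := by exact_mod_cast dilates_card_le K' A
    have hX : c / (K' : ℝ) ^ (m + 1) * ((dilates K' A).card : ℝ) ^ ((k : ℝ) + 1 - ε) ≤
        c * (A.card : ℝ) ^ ((k : ℝ) + 1 - ε) := by
      rw [div_mul_eq_mul_div, div_le_iff₀ (by positivity), mul_assoc]
      refine mul_le_mul_of_nonneg_left ?_ hc.le
      rcases le_or_gt 0 ((k : ℝ) + 1 - ε) with h | h
      · refine (Real.rpow_le_rpow (by positivity) hXA h).trans ?_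
        rw [Real.mul_rpow hK0.le hA0.le, mul_comm]
        refine mul_le_mul_of_nonneg_left ?_ (by positivity)
        rw [← Real.rpow_natCast]
        refine Real.rpow_le_rpow_of_exponent_le hKr ?_
        have : (k : ℝ) ≤ m := by exact_mod_cast hkm
        push_cast
        linarith
      · refine (Real.rpow_le_rpow_of_nonpos hA0 hAX' h.le).trans ?_
        exact le_mul_of_one_le_right (by positivity) hKk
    refine hX.trans (h5.trans ?_)
    have h6 : ((prodSet k A).card : ℝ) ≤ (prodSet k (dilates K' A)).card := by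
      exact_mod_cast card_le_card (prodSet_mono (subset_dilates hK1 A))
    have h7 : ((dilateSum k l A).card : ℝ) ≤ (sumSet k (dilates K' A)).card := by
      exact_mod_cast card_le_card (dilateSum_sub (fun i => ⟨(hl i).1, (hl i).2.trans hKK⟩) A)
    exact mul_le_mul h6 h7 (by positivity) (by positivity)

end Pool.Agent.Results.MP_120218_co.BoundedDilates
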