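import Mathlib
import Pool.Agent.T2H12.KG.Main

/-!
# The `k`-fold sum-product conjecture for sets with few independent popular primes

A prime `p` is popular for a finite set `A` of integers if no value of `v_p` is taken by all but a
small proportion of the elements of `A`. We prove the inequality
`max (|kA|, |A ^ k|) ≥ c |A| ^ (k - ε)` for all `A` with at most `δ log |A|` popular primes, and more
generally when the valuations of `A` at any number of popular primes are determined, up to `|A| ^ δ`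
possibilities, by the valuations at at most `δ log |A|` of them.
-/

set_option autoImplicit false

namespace Pool.Agent.Results.MP_120218_co.FewIndependentPrimes

open Finset
open scoped Classical
open Pool.Agent.Y359.PE Pool.Agent.T2H12.KF Pool.Agent.T2H12.KG

/-- The valuations of `a` at the primes of `Q`. -/
def vals (Q : Finset ℕ) (a : ℤ) : ℕ → ℕ := fun q => if q ∈ Q then a.natAbs.factorization q else 0

/-- The elements of `A` with the sign of `a` and with the valuation of `a` at every prime outside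
`Q`, that is, the elements `b` of `A` such that `b / a` is a product of powers of primes of `Q`. -/
noncomputable def fibre (Q : Finset ℕ) (A : Finset ℤ) (a : ℤ) : Finset ℤ :=
  A.filter fun b => (0 < b ↔ 0 < a) ∧
    ∀ p : ℕ, p ∉ Q → b.natAbs.factorization p = a.natAbs.factorization p

/-- The set `mA + B`. -/
noncomputable def sumSet (m : ℕ) (A B : Finset ℤ) : Finset ℤ :=
  ((Fintype.piFinset fun _ : Fin m => A) ×ˢ B).image fun s => (∑ i, s.1 i) + s.2

/-- For every `a` in `A` the elements of `A` with the valuations of `a` at `P` have at most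
`|A| ^ δ` different vectors of valuations at `Q`. -/
def Determined (δ : ℝ) (P Q : Finset ℕ) (A : Finset ℤ) : Prop :=
  ∀ a ∈ A, (((A.filter fun b => vals P b = vals P a).image (vals Q)).card : ℝ) ≤
    (A.card : ℝ) ^ δ

lemma sumSet_eq (m : ℕ) (A B : Finset ℤ) : sumSet m A B = ts A B m := rfl

lemma det_iff {δ : ℝ} {P Q : Finset ℕ} {A : Finset ℤ} (hA : A.Nonempty)
    (h : Determined δ P Q A) : Det P Q δ A := by
  have hc : (0 : ℝ) < A.card := by exact_mod_cast card_pos.2 hA
  intro x hx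
  have h1 := h x hx
  rw [mul_comm, ← Real.rpow_def_of_pos hc]
  exact h1

lemma fibre_eq {Q : Finset ℕ} (hQ : ∀ q ∈ Q, q.Prime) {A : Finset ℤ} (h0 : (0 : ℤ) ∉ A) {a : ℤ}
    (ha : a ∈ A) : (fibre Q A a).card = fc A (gq Q) a := by
  unfold fibre fc
  congr 1
  ext b
  rw [mem_cl, mem_filter]
  refine and_congr_right fun hb => ?_
  exact (gq_eq_iff hQ (fun h => h0 (h ▸ hb)) (fun h => h0 (h ▸ ha))).symm

lemma sumSet_singleton (k : ℕ) (A : Finset ℤ) :
    sumSet k A {0} = (Fintype.piFinset fun _ : Fin k => A).image fun f => ∑ i, f i := by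
  unfold sumSet
  ext x
  rw [mem_image, mem_image]
  constructor
  · rintro ⟨⟨f, b⟩, h1, rfl⟩
    obtain ⟨h2, h3⟩ := mem_product.1 h1
    rw [mem_singleton] at h3
    simp only at h3
    exact ⟨f, h2, by simp [h3]⟩
  · rintro ⟨f, h1, rfl⟩
    exact ⟨(f, 0), mem_product.2 ⟨h1, mem_singleton_self 0⟩, by simp⟩

theorem main_max (k : ℕ) (hk : 1 ≤ k) (ε : ℝ) (hε : 0 < ε) : ∃ L δ c : ℝ, 1 ≤ L ∧ 0 < δ ∧
    0 < c ∧ ∀ (A : Finset ℤ) (P Q : Finset ℕ), A.Nonempty → (∀ q ∈ Q, q.Prime) → P ⊆ Q →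
      (P.card : ℝ) ≤ δ * Real.log A.card → Determined δ P Q (A.erase 0) →
      (∀ p : ℕ, p.Prime → p ∉ Q → ∃ e : ℕ,
        L * (((A.erase 0).filter fun a => a.natAbs.factorization p ≠ e).card : ℝ) ≤ A.card) →
      c * (A.card : ℝ) ^ ((k : ℝ) - ε) ≤
        max (((Fintype.piFinset fun _ : Fin k => A).image fun f => ∑ i, f i).card : ℝ)
          (((Fintype.piFinset fun _ : Fin k => A).image fun f => ∏ i, f i).card : ℝ) := by
  have hkr : (1 : ℝ) ≤ k := by exact_mod_cast hk
  set ε' : ℝ := min 1 (ε / k) with hε'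
  have hε'0 : 0 < ε' := by positivity
  have hε'1 : ε' ≤ 1 := min_le_left _ _
  have hε'k : k * ε' ≤ ε := by
    have h1 : ε' ≤ ε / k := min_le_right _ _
    have h2 := mul_le_mul_of_nonneg_left h1 (by linarith : (0 : ℝ) ≤ k)
    have h3 : k * (ε / k) = ε := by field_simp
    linarith
  have hε'ε : ε' ≤ ε := by nlinarith
  obtain ⟨L, δ, c, hL, hδ, hc, h⟩ := Pool.Agent.T2H12.KG.dich k k hk hε'0 hε'1
  refine ⟨2 * L, min (δ / 2) 1, min c 1 / 2 ^ k, by linarith, by positivity, by positivity, ?_⟩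
  intro A P Q hA hQ hPQ hP hdet hpop
  have hAc : (1 : ℝ) ≤ A.card := by exact_mod_cast card_pos.2 hA
  have h2k : (0 : ℝ) < 2 ^ k := by positivity
  -- the sets of the products and the sums
  set S := (Fintype.piFinset fun _ : Fin k => A).image fun f => ∑ i, f i with hS
  set R := (Fintype.piFinset fun _ : Fin k => A).image fun f => ∏ i, f i with hR
  have hSR : (1 : ℝ) ≤ max (S.card : ℝ) (R.card : ℝ) := by
    obtain ⟨a, ha⟩ := hA
    have : S.Nonempty := ⟨_, mem_image_of_mem _ (Fintype.mem_piFinset.2 fun _ => ha)⟩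
    exact le_max_of_le_left (by exact_mod_cast card_pos.2 this)
  have hsmall : A.card ≤ 2 → min c 1 / 2 ^ k * (A.card : ℝ) ^ ((k : ℝ) - ε) ≤
      max (S.card : ℝ) (R.card : ℝ) := by
    intro h2
    refine le_trans ?_ hSR
    have h3 : (A.card : ℝ) ^ ((k : ℝ) - ε) ≤ 2 ^ k := by
      have h4 : (A.card : ℝ) ^ ((k : ℝ) - ε) ≤ (A.card : ℝ) ^ (k : ℝ) :=
        Real.rpow_le_rpow_of_exponent_le hAc (by linarith)
      rw [Real.rpow_natCast] at h4
      refine h4.trans (pow_le_pow_left₀ (by linarith) (by exact_mod_cast h2) k)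
    have h4 : min c 1 / 2 ^ k * (A.card : ℝ) ^ ((k : ℝ) - ε) ≤ 1 / 2 ^ k * 2 ^ k :=
      mul_le_mul (div_le_div_of_nonneg_right (min_le_right _ _) h2k.le) h3 (by positivity)
        (by positivity)
    refine h4.trans (le_of_eq ?_)
    field_simp
  rcases Nat.lt_or_ge 2 A.card with h2 | h2
  swap
  · exact hsmall h2
  set A₀ := A.erase 0 with hA₀
  have hsub : A₀ ⊆ A := erase_subset _ _
  have hcard' : A.card ≤ A₀.card + 1 := by
    have := pred_card_le_card_erase (s := A) (a := 0)
    rw [← hA₀] at this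
    omega
  have hcard : A.card ≤ 2 * A₀.card := by omega
  have hcard2 : 2 ≤ A₀.card := by omega
  have hA₀n : A₀.Nonempty := card_pos.1 (by omega)
  have hA₀0 : (0 : ℤ) ∉ A₀ := notMem_erase _ _
  have hcr : (A.card : ℝ) ≤ 2 * A₀.card := by exact_mod_cast hcard
  have hc2r : (2 : ℝ) ≤ A₀.card := by exact_mod_cast hcard2
  have hlog : Real.log A.card ≤ 2 * Real.log A₀.card := by
    have h3 := Real.log_le_log (by linarith) hcr
    rw [Real.log_mul (by norm_num) (by linarith)] at h3
    have h4 := Real.log_le_log (by norm_num) hc2r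
    linarith
  have hla : 0 ≤ Real.log A.card := Real.log_nonneg hAc
  have hla0 : 0 ≤ Real.log A₀.card := Real.log_nonneg (by linarith)
  have h1 := h A₀ P Q hA₀n hA₀0 hQ hPQ (by
      refine hP.trans ?_
      calc min (δ / 2) 1 * Real.log A.card ≤ δ / 2 * Real.log A.card :=
            mul_le_mul_of_nonneg_right (min_le_left _ _) hla
        _ ≤ δ / 2 * (2 * Real.log A₀.card) := mul_le_mul_of_nonneg_left hlog (by positivity)
        _ = _ := by ring) (by
      intro x hx
      refine (det_iff hA₀n hdet x hx).trans (Real.exp_le_exp.2 ?_)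
      refine mul_le_mul_of_nonneg_right ?_ hla0
      have := min_le_left (δ / 2) 1
      linarith) (by
      intro p hp hpQ
      obtain ⟨e, he⟩ := hpop p hp hpQ
      refine ⟨e, ?_⟩
      have h3 : 2 * L * ((A₀.filter fun a => a.natAbs.factorization p ≠ e).card : ℝ) ≤
          2 * A₀.card := he.trans hcr
      change L * ((A₀.filter fun a => a.natAbs.factorization p ≠ e).card : ℝ) ≤ A₀.card
      linarith)
  have hpow : ∀ x : ℝ, x ≤ k → (k : ℝ) - ε ≤ x → min c 1 / 2 ^ k * (A.card : ℝ) ^ ((k : ℝ) - ε) ≤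
      c * (A₀.card : ℝ) ^ x := by
    intro x hx1 hx2
    have h3 : (A.card : ℝ) ^ ((k : ℝ) - ε) ≤ (A.card : ℝ) ^ x :=
      Real.rpow_le_rpow_of_exponent_le hAc hx2
    have hx0 : 0 ≤ x ∨ x < 0 := le_or_gt 0 x
    have h4 : (A.card : ℝ) ^ x ≤ 2 ^ k * (A₀.card : ℝ) ^ x := by
      rcases hx0 with hx0 | hx0
      · calc (A.card : ℝ) ^ x ≤ (2 * A₀.card) ^ x := Real.rpow_le_rpow (by linarith) hcr hx0
          _ = 2 ^ x * (A₀.card : ℝ) ^ x := Real.mul_rpow (by norm_num) (by linarith)
          _ ≤ 2 ^ k * (A₀.card : ℝ) ^ x := by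
            refine mul_le_mul_of_nonneg_right ?_ (by positivity)
            rw [← Real.rpow_natCast]
            exact Real.rpow_le_rpow_of_exponent_le (by norm_num) hx1
      · have h5 : (A.card : ℝ) ^ x ≤ (A₀.card : ℝ) ^ x :=
          Real.rpow_le_rpow_of_nonpos (by linarith) (by exact_mod_cast card_le_card hsub) hx0.le
        refine h5.trans (le_mul_of_one_le_left (by positivity) ?_)
        exact one_le_pow₀ (by norm_num)
    calc min c 1 / 2 ^ k * (A.card : ℝ) ^ ((k : ℝ) - ε) ≤ c / 2 ^ k * (2 ^ k * (A₀.card : ℝ) ^ x) :=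
          mul_le_mul (div_le_div_of_nonneg_right (min_le_left _ _) h2k.le) (h3.trans h4)
            (by positivity) (by positivity)
      _ = _ := by field_simp
  rcases h1 with h1 | h1
  · refine le_trans ?_ (le_max_right _ _)
    refine (hpow ((k : ℝ) - ε') (by linarith) (by linarith)).trans (h1.trans ?_)
    have h3 : pk k A₀ ⊆ pk k A := pk_mono hsub
    have h4 : (pk k A₀).card ≤ R.card := card_le_card h3
    exact_mod_cast h4
  · refine le_trans ?_ (le_max_left _ _)
    have h3 := h1 {0} (singleton_nonempty 0)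
    rw [card_singleton, Nat.cast_one, mul_one, ← Real.rpow_natCast,
      ← Real.rpow_mul (by linarith)] at h3
    refine (hpow ((k : ℝ) * (1 - ε')) (by nlinarith) (by nlinarith)).trans (h3.trans ?_)
    have h4 : ts A₀ {0} k ⊆ S := by
      refine (ts_mono hsub k).trans ?_
      rw [← sumSet_eq, sumSet_singleton]
    exact_mod_cast card_le_card h4

/-- **Sets with few independent popular primes.** -/
theorem result :
    -- sums of sets with long fibres
    (∀ (m : ℕ) (κ ε : ℝ), 0 < κ → 0 < ε → ∃ δ c : ℝ, 0 < δ ∧ 0 < c ∧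
      ∀ (A : Finset ℤ) (P Q : Finset ℕ), A.Nonempty → (0 : ℤ) ∉ A → (∀ q ∈ Q, q.Prime) → P ⊆ Q →
        (P.card : ℝ) ≤ δ * Real.log A.card → Determined δ P Q A →
        κ * (A.card * Real.log A.card) ≤ ∑ a ∈ A, Real.log (fibre Q A a).card →
        ∀ B : Finset ℤ, B.Nonempty →
          c * ((A.card : ℝ) ^ m * B.card) ^ (1 - ε) ≤ (sumSet m A B).card) ∧
    -- products or sums
    (∀ k m : ℕ, 1 ≤ k → ∀ ε : ℝ, 0 < ε → ∃ L δ c : ℝ, 1 ≤ L ∧ 0 < δ ∧ 0 < c ∧
      ∀ (A : Finset ℤ) (P Q : Finset ℕ), A.Nonempty → (0 : ℤ) ∉ A → (∀ q ∈ Q, q.Prime) → P ⊆ Q →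
        (P.card : ℝ) ≤ δ * Real.log A.card → Determined δ P Q A →
        (∀ p : ℕ, p.Prime → p ∉ Q → ∃ e : ℕ,
          L * ((A.filter fun a => a.natAbs.factorization p ≠ e).card : ℝ) ≤ A.card) →
        c * (A.card : ℝ) ^ ((k : ℝ) - ε) ≤
          (((Fintype.piFinset fun _ : Fin k => A).image fun f => ∏ i, f i).card : ℝ) ∨
        ∀ B : Finset ℤ, B.Nonempty →
          c * ((A.card : ℝ) ^ m * B.card) ^ (1 - ε) ≤ (sumSet m A B).card) ∧
    -- the conjecture for sets with few independent popular primes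
    (∀ k : ℕ, 1 ≤ k → ∀ ε : ℝ, 0 < ε → ∃ L δ c : ℝ, 1 ≤ L ∧ 0 < δ ∧ 0 < c ∧
      ∀ (A : Finset ℤ) (P Q : Finset ℕ), A.Nonempty → (∀ q ∈ Q, q.Prime) → P ⊆ Q →
        (P.card : ℝ) ≤ δ * Real.log A.card → Determined δ P Q (A.erase 0) →
        (∀ p : ℕ, p.Prime → p ∉ Q → ∃ e : ℕ,
          L * (((A.erase 0).filter fun a => a.natAbs.factorization p ≠ e).card : ℝ) ≤ A.card) →
        c * (A.card : ℝ) ^ ((k : ℝ) - ε) ≤
          max (((Fintype.piFinset fun _ : Fin k => A).image fun f => ∑ i, f i).card : ℝ)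
            (((Fintype.piFinset fun _ : Fin k => A).image fun f => ∏ i, f i).card : ℝ)) ∧
    -- the conjecture for sets with few popular primes
    (∀ k : ℕ, 1 ≤ k → ∀ ε : ℝ, 0 < ε → ∃ L δ c : ℝ, 1 ≤ L ∧ 0 < δ ∧ 0 < c ∧
      ∀ (A : Finset ℤ) (P : Finset ℕ), A.Nonempty → (∀ q ∈ P, q.Prime) →
        (P.card : ℝ) ≤ δ * Real.log A.card →
        (∀ p : ℕ, p.Prime → p ∉ P → ∃ e : ℕ,
          L * (((A.erase 0).filter fun a => a.natAbs.factorization p ≠ e).card : ℝ) ≤ A.card) →
        c * (A.card : ℝ) ^ ((k : ℝ) - ε) ≤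
          max (((Fintype.piFinset fun _ : Fin k => A).image fun f => ∑ i, f i).card : ℝ)
            (((Fintype.piFinset fun _ : Fin k => A).image fun f => ∏ i, f i).card : ℝ)) := by
  refine ⟨?_, ?_, main_max, ?_⟩
  · intro m κ ε hκ hε
    obtain ⟨δ, c, hδ, hc, h⟩ := Pool.Agent.T2H12.KG.fibres m hκ (lt_min hε one_pos) (min_le_right ε 1)
    refine ⟨δ, c, hδ, hc, ?_⟩
    intro A P Q hA h0 hQ hPQ hP hdet hκA B hB
    have hAc : (1 : ℝ) ≤ A.card := by exact_mod_cast card_pos.2 hA
    have hBc : (1 : ℝ) ≤ B.card := by exact_mod_cast card_pos.2 hB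
    have h1 := h A P Q hA h0 hQ hPQ hP (det_iff hA hdet) (by
      unfold Pool.Agent.Y359.PE.h
      rw [div_le_iff₀ (by linarith), sum_sub_distrib, sum_const, nsmul_eq_mul]
      rw [sum_congr rfl fun a ha => by rw [fibre_eq hQ h0 ha]] at hκA
      linarith) B hB
    rw [sumSet_eq]
    refine le_trans (mul_le_mul_of_nonneg_left ?_ hc.le) h1
    refine Real.rpow_le_rpow_of_exponent_le ?_ (by linarith [min_le_left ε 1])
    have := one_le_pow₀ hAc (n := m)
    nlinarith
  · intro k m hk ε hε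
    obtain ⟨L, δ, c, hL, hδ, hc, h⟩ := Pool.Agent.T2H12.KG.dich k m hk (lt_min hε one_pos) (min_le_right ε 1)
    refine ⟨L, δ, c, hL, hδ, hc, ?_⟩
    intro A P Q hA h0 hQ hPQ hP hdet hpop
    have hAc : (1 : ℝ) ≤ A.card := by exact_mod_cast card_pos.2 hA
    rcases h A P Q hA h0 hQ hPQ hP (det_iff hA hdet) hpop with h1 | h1
    · left
      refine le_trans (mul_le_mul_of_nonneg_left ?_ hc.le) h1
      exact Real.rpow_le_rpow_of_exponent_le hAc (by linarith [min_le_left ε 1])
    · right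
      intro B hB
      have hBc : (1 : ℝ) ≤ B.card := by exact_mod_cast card_pos.2 hB
      refine le_trans (mul_le_mul_of_nonneg_left ?_ hc.le) (h1 B hB)
      refine Real.rpow_le_rpow_of_exponent_le ?_ (by linarith [min_le_left ε 1])
      have := one_le_pow₀ hAc (n := m)
      nlinarith
  · intro k hk ε hε
    obtain ⟨L, δ, c, hL, hδ, hc, h⟩ := main_max k hk ε hε
    refine ⟨L, δ, c, hL, hδ, hc, ?_⟩
    intro A P hA hP hPc hpop
    rcases (A.erase 0).eq_empty_or_nonempty with h0 | h0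
    · refine h A P P hA hP (Subset.refl _) hPc ?_ hpop
      intro a ha
      rw [h0] at ha
      simp at ha
    · refine h A P P hA hP (Subset.refl _) hPc ?_ hpop
      intro a ha
      have hc1 : (1 : ℝ) ≤ (A.erase 0).card := by exact_mod_cast card_pos.2 h0
      have h1 : ((((A.erase 0).filter fun b => vals P b = vals P a).image (vals P)).card : ℝ) ≤
          1 := by
        have h2 : (((A.erase 0).filter fun b => vals P b = vals P a).image (vals P)).card ≤ 1 := by
          refine card_le_one.2 fun x hx y hy => ?_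
          obtain ⟨b, hb, rfl⟩ := mem_image.1 hx
          obtain ⟨b', hb', rfl⟩ := mem_image.1 hy
          rw [(mem_filter.1 hb).2, (mem_filter.1 hb').2]
        exact_mod_cast h2
      exact h1.trans (Real.one_le_rpow hc1 hδ.le)

end Pool.Agent.Results.MP_120218_co.FewIndependentPrimes
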