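import Mathlib
import Pool.Agent.T2H12.KN.Asm

/-!
# Sets with few products have large sums of dilates

If the `n`-fold product set of a finite set `A` of non-zero integers has at most
`|A| ^ (2 - 1 / n - η)` elements for some `n ≥ 2`, then the sums of `k` dilates of `A` by suitable
bounded positive integers have at least `c |A| ^ (k - ε)` elements, for all `k`.
-/

set_option autoImplicit false

namespace Pool.Agent.Results.MP_120218_co.FewProductsManySums

open Finset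
open scoped Classical

/-- The set of all products of `k` elements of `A`. -/
def prodSet (k : ℕ) (A : Finset ℤ) : Finset ℤ :=
  (Fintype.piFinset fun _ : Fin k => A).image fun f => ∏ i, f i

/-- The set of all sums of `k` elements of `A`. -/
def sumSet (k : ℕ) (A : Finset ℤ) : Finset ℤ :=
  (Fintype.piFinset fun _ : Fin k => A).image fun f => ∑ i, f i

/-- The union `A ∪ 2 A ∪ ... ∪ K A` of the dilates of `A` by `1, ..., K`. -/
def dilates (K : ℕ) (A : Finset ℤ) : Finset ℤ :=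
  (Finset.Icc 1 K ×ˢ A).image fun s => (s.1 : ℤ) * s.2

/-- The set `l 0 A + l 1 A + ... + l (k - 1) A + B`. -/
def dilateSum (k : ℕ) (l : ℕ → ℕ) (A B : Finset ℤ) : Finset ℤ :=
  ((Fintype.piFinset fun _ : Fin k => A) ×ˢ B).image
    fun s => ∑ i : Fin k, (l (i : ℕ) : ℤ) * s.1 i + s.2

/-- one summand can be taken with the dilation `1` -/
lemma card_drop (n : ℕ) (l : ℕ → ℕ) (A : Finset ℤ) :
    (dilateSum (n + 1) l A A).card ≤
      A.card * (dilateSum (n + 1) (fun i => if i = 0 then 1 else l i) A {0}).card := by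
  set l' : ℕ → ℕ := fun i => if i = 0 then 1 else l i with hl'
  rw [← card_product]
  refine le_trans (card_le_card ?_)
    (card_image_le (s := A ×ˢ dilateSum (n + 1) l' A {0}) (f := fun s => (l 0 : ℤ) * s.1 + s.2))
  intro x hx
  obtain ⟨⟨f, b⟩, hfb, rfl⟩ := mem_image.1 hx
  obtain ⟨hf, hb⟩ := mem_product.1 hfb
  have hf' : ∀ i, f i ∈ A := fun i => Fintype.mem_piFinset.1 hf i
  refine mem_image.2 ⟨(f 0, ∑ i : Fin (n + 1), (l' (i : ℕ) : ℤ) *
    (Fin.cons b (fun j : Fin n => f j.succ) : Fin (n + 1) → ℤ) i + 0), ?_, ?_⟩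
  · rw [mem_product]
    refine ⟨hf' 0, mem_image.2 ⟨(Fin.cons b (fun j : Fin n => f j.succ), 0), ?_, rfl⟩⟩
    rw [mem_product]
    refine ⟨Fintype.mem_piFinset.2 fun i => ?_, mem_singleton_self _⟩
    refine Fin.cases ?_ (fun j => ?_) i
    · simpa using hb
    · simpa using hf' j.succ
  · simp only [Fin.sum_univ_succ, Fin.cons_zero, Fin.cons_succ, Fin.val_zero, Fin.val_succ]
    have h0 : l' 0 = 1 := by rw [hl']; simp
    have h1 : ∀ j : Fin n, l' ((j : ℕ) + 1) = l ((j : ℕ) + 1) := fun j => by rw [hl']; simp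
    rw [h0]
    simp only [h1]
    push_cast
    ring

lemma dilateSum_sub {k K : ℕ} {l : ℕ → ℕ} (hl : ∀ i, 1 ≤ l i ∧ l i ≤ K) (A : Finset ℤ) :
    dilateSum k l A {0} ⊆ sumSet k (dilates K A) := by
  intro x hx
  obtain ⟨⟨f, b⟩, hfb, rfl⟩ := mem_image.1 hx
  obtain ⟨hf, hb⟩ := mem_product.1 hfb
  refine mem_image.2 ⟨fun i => (l (i : ℕ) : ℤ) * f i, Fintype.mem_piFinset.2 fun i => ?_, ?_⟩
  · exact mem_image.2 ⟨(l (i : ℕ), f i), mem_product.2 ⟨mem_Icc.2 (hl _),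
      Fintype.mem_piFinset.1 hf i⟩, rfl⟩
  · have h1 : b = 0 := mem_singleton.1 hb
    simp only [h1, add_zero]

lemma dilates_card_le (K : ℕ) (A : Finset ℤ) : (dilates K A).card ≤ K * A.card := by
  refine card_image_le.trans ?_
  rw [card_product, Nat.card_Icc, Nat.add_sub_cancel]

/-- from the general bound to the three conclusions -/
lemma three_of {k : ℕ} (hk : 1 ≤ k) {ε ε' : ℝ} (hε' : 0 < ε') (h2 : 2 * k * ε' ≤ ε)
    {K : ℕ} {c : ℝ} (hc : 0 < c) {A : Finset ℤ} (hA : A.Nonempty)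
    (H : ∀ B : Finset ℤ, B.Nonempty → ∃ l : ℕ → ℕ, (∀ i, 1 ≤ l i ∧ l i ≤ K) ∧
        c * ((A.card : ℝ) ^ k * B.card) ^ (1 - ε') ≤ (dilateSum k l A B).card) :
    (∀ B : Finset ℤ, B.Nonempty → ∃ l : ℕ → ℕ, (∀ i, 1 ≤ l i ∧ l i ≤ K) ∧
        c / (K : ℝ) ^ k * (A.card : ℝ) ^ ((k : ℝ) - ε) * (B.card : ℝ) ^ (1 - ε) ≤
          (dilateSum k l A B).card) ∧
      (∃ l : ℕ → ℕ, l 0 = 1 ∧ (∀ i, 1 ≤ l i ∧ l i ≤ K) ∧
        c / (K : ℝ) ^ k * (A.card : ℝ) ^ ((k : ℝ) - ε) ≤ (dilateSum k l A {0}).card) ∧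
      c / (K : ℝ) ^ k * ((dilates K A).card : ℝ) ^ ((k : ℝ) - ε) ≤
        (sumSet k (dilates K A)).card := by
  have hkr : (1 : ℝ) ≤ k := by exact_mod_cast hk
  have hAc : (1 : ℝ) ≤ A.card := by exact_mod_cast card_pos.2 hA
  have hA0 : (0 : ℝ) < A.card := by linarith
  have hke : (k + 1) * ε' ≤ ε := by nlinarith
  have hke' : k * ε' ≤ ε := by nlinarith
  have hee : ε' ≤ ε := by nlinarith
  have hpow : ∀ B : Finset ℤ, B.Nonempty → ((A.card : ℝ) ^ k * B.card) ^ (1 - ε') =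
      (A.card : ℝ) ^ ((k : ℝ) - k * ε') * (B.card : ℝ) ^ (1 - ε') := by
    intro B hB
    rw [Real.mul_rpow (by positivity) (by positivity), ← Real.rpow_natCast,
      ← Real.rpow_mul hA0.le]
    congr 2
    ring
  have hK : 1 ≤ K := by
    obtain ⟨l, hl, -⟩ := H A hA
    exact (hl 0).1.trans (hl 0).2
  have hKr : (1 : ℝ) ≤ K := by exact_mod_cast hK
  have hK0 : (0 : ℝ) < K := by linarith
  have hKk : (1 : ℝ) ≤ (K : ℝ) ^ k := one_le_pow₀ hKr
  have hcc : c / (K : ℝ) ^ k ≤ c := div_le_self hc.le hKk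
  have hw : ∀ x y : ℝ, 0 ≤ x → c * x ≤ y → c / (K : ℝ) ^ k * x ≤ y := fun x y hx hxy =>
    (mul_le_mul_of_nonneg_right hcc hx).trans hxy
  have hone : ∃ l : ℕ → ℕ, l 0 = 1 ∧ (∀ i, 1 ≤ l i ∧ l i ≤ K) ∧
      c * (A.card : ℝ) ^ ((k : ℝ) - ε) ≤ (dilateSum k l A {0}).card := by
    obtain ⟨l, hl, h⟩ := H A hA
    obtain ⟨n, rfl⟩ : ∃ n, k = n + 1 := ⟨k - 1, by omega⟩
    refine ⟨fun i => if i = 0 then 1 else l i, by simp, ?_, ?_⟩
    · intro i
      by_cases hi : i = 0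
      · simp [hi, hK]
      · simp [hi, (hl i).1, (hl i).2]
    · have h3 : ((dilateSum (n + 1) l A A).card : ℝ) ≤
          A.card * (dilateSum (n + 1) (fun i => if i = 0 then 1 else l i) A {0}).card := by
        exact_mod_cast card_drop n l A
      have h4 := h.trans h3
      rw [hpow A hA] at h4
      have h5 : (A.card : ℝ) ^ (((n + 1 : ℕ) : ℝ) - (n + 1 : ℕ) * ε') * (A.card : ℝ) ^ (1 - ε') =
          A.card * (A.card : ℝ) ^ (((n + 1 : ℕ) : ℝ) - ((n + 1 : ℕ) + 1) * ε') := by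
        have h6 : (A.card : ℝ) * (A.card : ℝ) ^ (((n + 1 : ℕ) : ℝ) - ((n + 1 : ℕ) + 1) * ε') =
            (A.card : ℝ) ^ (1 + (((n + 1 : ℕ) : ℝ) - ((n + 1 : ℕ) + 1) * ε')) := by
          rw [Real.rpow_add hA0, Real.rpow_one]
        rw [h6, ← Real.rpow_add hA0]
        congr 1
        ring
      rw [h5, ← mul_assoc, mul_comm c, mul_assoc] at h4
      refine le_trans ?_ (le_of_mul_le_mul_left h4 hA0)
      refine mul_le_mul_of_nonneg_left ?_ hc.le
      exact Real.rpow_le_rpow_of_exponent_le hAc (by linarith)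
  have hAX : A.card ≤ (dilates K A).card := card_le_card fun a ha =>
    mem_image.2 ⟨(1, a), mem_product.2 ⟨mem_Icc.2 ⟨le_rfl, hK⟩, ha⟩, by simp⟩
  have hAX' : (A.card : ℝ) ≤ (dilates K A).card := by exact_mod_cast hAX
  have hXA : ((dilates K A).card : ℝ) ≤ K * A.card := by exact_mod_cast dilates_card_le K A
  have hX : c / (K : ℝ) ^ k * ((dilates K A).card : ℝ) ^ ((k : ℝ) - ε) ≤
      c * (A.card : ℝ) ^ ((k : ℝ) - ε) := by
    rw [div_mul_eq_mul_div, div_le_iff₀ (by positivity), mul_assoc]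
    refine mul_le_mul_of_nonneg_left ?_ hc.le
    rcases le_or_gt 0 ((k : ℝ) - ε) with h | h
    · refine (Real.rpow_le_rpow (by positivity) hXA h).trans ?_
      rw [Real.mul_rpow hK0.le hA0.le, mul_comm]
      refine mul_le_mul_of_nonneg_left ?_ (by positivity)
      rw [← Real.rpow_natCast]
      exact Real.rpow_le_rpow_of_exponent_le hKr (by
        have : 0 < ε := lt_of_lt_of_le (by positivity) h2
        linarith)
    · refine (Real.rpow_le_rpow_of_nonpos hA0 hAX' h.le).trans ?_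
      exact le_mul_of_one_le_right (by positivity) hKk
  obtain ⟨l, hl0, hl, h1⟩ := hone
  refine ⟨fun B hB => ?_, ⟨l, hl0, hl, hw _ _ (by positivity) h1⟩, ?_⟩
  · obtain ⟨l', hl', h⟩ := H B hB
    refine ⟨l', hl', ?_⟩
    rw [mul_assoc]
    refine hw _ _ (by positivity) (le_trans ?_ h)
    have hBc : (1 : ℝ) ≤ B.card := by exact_mod_cast card_pos.2 hB
    rw [hpow B hB]
    refine mul_le_mul_of_nonneg_left ?_ hc.le
    refine mul_le_mul (Real.rpow_le_rpow_of_exponent_le hAc (by linarith))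
      (Real.rpow_le_rpow_of_exponent_le hBc (by linarith)) (by positivity) (by positivity)
  · refine hX.trans (h1.trans ?_)
    exact_mod_cast card_le_card (dilateSum_sub hl A)

/-- **Few products imply many sums of dilates.** -/
theorem result (n : ℕ) (hn : 2 ≤ n) (k : ℕ) (hk : 1 ≤ k) (η ε : ℝ) (hη : 0 < η) (hε : 0 < ε) :
    ∃ (K : ℕ) (c : ℝ), 0 < c ∧ ∀ A : Finset ℤ, A.Nonempty → (0 : ℤ) ∉ A →
      ((prodSet n A).card : ℝ) ≤ (A.card : ℝ) ^ (2 - 1 / (n : ℝ) - η) →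
        (∀ B : Finset ℤ, B.Nonempty → ∃ l : ℕ → ℕ, (∀ i, 1 ≤ l i ∧ l i ≤ K) ∧
          c * (A.card : ℝ) ^ ((k : ℝ) - ε) * (B.card : ℝ) ^ (1 - ε) ≤
            (dilateSum k l A B).card) ∧
        (∃ l : ℕ → ℕ, l 0 = 1 ∧ (∀ i, 1 ≤ l i ∧ l i ≤ K) ∧
          c * (A.card : ℝ) ^ ((k : ℝ) - ε) ≤ (dilateSum k l A {0}).card) ∧
        c * ((dilates K A).card : ℝ) ^ ((k : ℝ) - ε) ≤ (sumSet k (dilates K A)).card := by
  have hkr : (1 : ℝ) ≤ k := by exact_mod_cast hk
  have hk0 : (0 : ℝ) < k := by linarith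
  set ε' : ℝ := min ε 1 / (2 * k) with hεd
  have hm : 0 < min ε 1 := lt_min hε one_pos
  have hε' : 0 < ε' := by positivity
  have hke : 2 * k * ε' = min ε 1 := by
    rw [hεd]
    field_simp
  have hε1 : ε' ≤ 1 := by
    have := min_le_right ε 1
    nlinarith
  obtain ⟨m, rfl⟩ : ∃ m, n = m + 1 := ⟨n - 1, by omega⟩
  obtain ⟨K₀, c₀, hc₀, H⟩ := Pool.Agent.T2H12.KN.main5 m (by omega) k (η := min η 1)
    (lt_min hη one_pos) (min_le_right _ _) hε' hε1
  set K : ℕ := max K₀ 1 with hKd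
  have hK1 : 1 ≤ K := le_max_right _ _
  have hKr : (1 : ℝ) ≤ K := by exact_mod_cast hK1
  refine ⟨K, c₀ / (K : ℝ) ^ k, by positivity, fun A hA h0 hfew => ?_⟩
  have hAc : (1 : ℝ) ≤ A.card := by exact_mod_cast card_pos.2 hA
  have hfew' : ((Pool.Agent.Y359.PE.pk (m + 1) A).card : ℝ) ≤
      (A.card : ℝ) ^ (2 - 1 / ((m : ℝ) + 1) - min η 1) := by
    refine (le_of_eq ?_).trans (hfew.trans ?_)
    · rfl
    · refine Real.rpow_le_rpow_of_exponent_le hAc ?_
      have := min_le_left η 1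
      push_cast
      linarith
  refine three_of hk hε' (by rw [hke]; exact min_le_left _ _) hc₀ hA fun B hB => ?_
  obtain ⟨l, hl, h3⟩ := H A hA h0 hfew' B hB
  exact ⟨l, fun i => ⟨(hl i).1, (hl i).2.trans (le_max_left _ _)⟩, h3⟩

end Pool.Agent.Results.MP_120218_co.FewProductsManySums
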