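import Mathlib
import Pool.Agent.T2H12.KO.Asm

/-!
# The `k`-fold sum-product conjecture for sums of bounded dilates, for every finite set of integers

For all `k, m ≥ 1` and `ε > 0` there are `K ≥ 1` and `c > 0` such that every finite non-empty set `A`
of integers satisfies `|A^k| ≥ c |A|^(k-ε)`, or for every finite non-empty `B` there are integers
`1 ≤ l_i ≤ K` with `|l_0 A + ... + l_(m-1) A + B| ≥ c |A|^(m-ε) |B|^(1-ε)`. In particular the
`k`-fold sum-product conjecture of Erdős and Szemerédi holds for all sets `A ∪ 2A ∪ ... ∪ KA`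
(dilates), `K = K(k, ε)`.
-/

set_option autoImplicit false

namespace Pool.Agent.Results.MP_120218_co.KFoldForBoundedDilates

open Finset
open scoped Classical

/-- The set of all products of `k` elements of `A`. -/
def prodSet (k : ℕ) (A : Finset ℤ) : Finset ℤ :=
  (Fintype.piFinset fun _ : Fin k => A).image fun f => ∏ i, f i

/-- The set of all sums of `k` elements of `A`. -/
def sumSet (k : ℕ) (A : Finset ℤ) : Finset ℤ :=
  (Fintype.piFinset fun _ : Fin k => A).image fun f => ∑ i, f i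

/-- The union `A ∪ 2 A ∪ ... ∪ K A` of the dilates of `A` by `1, ..., K`. -/
def dilates (K : ℕ) (A : Finset ℤ) : Finset ℤ :=
  (Finset.Icc 1 K ×ˢ A).image fun s => (s.1 : ℤ) * s.2

/-- The set `l 0 A + l 1 A + ... + l (k - 1) A + B`. -/
def dilateSum (k : ℕ) (l : ℕ → ℕ) (A B : Finset ℤ) : Finset ℤ :=
  ((Fintype.piFinset fun _ : Fin k => A) ×ˢ B).image
    fun s => ∑ i : Fin k, (l (i : ℕ) : ℤ) * s.1 i + s.2

/-- one summand can be taken with the dilation `1` -/
lemma card_drop (n : ℕ) (l : ℕ → ℕ) (A : Finset ℤ) :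
    (dilateSum (n + 1) l A A).card ≤
      A.card * (dilateSum (n + 1) (fun i => if i = 0 then 1 else l i) A {0}).card := by
  set l' : ℕ → ℕ := fun i => if i = 0 then 1 else l i with hl'
  rw [← card_product]
  refine le_trans (card_le_card ?_)
    (card_image_le (s := A ×ˢ dilateSum (n + 1) l' A {0}) (f := fun s => (l 0 : ℤ) * s.1 + s.2))
  intro x hx
  obtain ⟨⟨f, b⟩, hfb, rfl⟩ := mem_image.1 hx
  obtain ⟨hf, hb⟩ := mem_product.1 hfb
  have hf' : ∀ i, f i ∈ A := fun i => Fintype.mem_piFinset.1 hf i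
  refine mem_image.2 ⟨(f 0, ∑ i : Fin (n + 1), (l' (i : ℕ) : ℤ) *
    (Fin.cons b (fun j : Fin n => f j.succ) : Fin (n + 1) → ℤ) i + 0), ?_, ?_⟩
  · rw [mem_product]
    refine ⟨hf' 0, mem_image.2 ⟨(Fin.cons b (fun j : Fin n => f j.succ), 0), ?_, rfl⟩⟩
    rw [mem_product]
    refine ⟨Fintype.mem_piFinset.2 fun i => ?_, mem_singleton_self _⟩
    refine Fin.cases ?_ (fun j => ?_) i
    · simpa using hb
    · simpa using hf' j.succ
  · simp only [Fin.sum_univ_succ, Fin.cons_zero, Fin.cons_succ, Fin.val_zero, Fin.val_succ]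
    have h0 : l' 0 = 1 := by rw [hl']; simp
    have h1 : ∀ j : Fin n, l' ((j : ℕ) + 1) = l ((j : ℕ) + 1) := fun j => by rw [hl']; simp
    rw [h0]
    simp only [h1]
    push_cast
    ring

lemma dilateSum_sub {k K : ℕ} {l : ℕ → ℕ} (hl : ∀ i, 1 ≤ l i ∧ l i ≤ K) (A : Finset ℤ) :
    dilateSum k l A {0} ⊆ sumSet k (dilates K A) := by
  intro x hx
  obtain ⟨⟨f, b⟩, hfb, rfl⟩ := mem_image.1 hx
  obtain ⟨hf, hb⟩ := mem_product.1 hfb
  refine mem_image.2 ⟨fun i => (l (i : ℕ) : ℤ) * f i, Fintype.mem_piFinset.2 fun i => ?_, ?_⟩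
  · exact mem_image.2 ⟨(l (i : ℕ), f i), mem_product.2 ⟨mem_Icc.2 (hl _),
      Fintype.mem_piFinset.1 hf i⟩, rfl⟩
  · have h1 : b = 0 := mem_singleton.1 hb
    simp only [h1, add_zero]

lemma dilates_card_le (K : ℕ) (A : Finset ℤ) : (dilates K A).card ≤ K * A.card := by
  refine card_image_le.trans ?_
  rw [card_product, Nat.card_Icc, Nat.add_sub_cancel]

/-- from the general bound to the three conclusions -/
lemma three_of {k : ℕ} (hk : 1 ≤ k) {ε ε' : ℝ} (hε' : 0 < ε') (h2 : 2 * k * ε' ≤ ε)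
    {K : ℕ} {c : ℝ} (hc : 0 < c) {A : Finset ℤ} (hA : A.Nonempty)
    (H : ∀ B : Finset ℤ, B.Nonempty → ∃ l : ℕ → ℕ, (∀ i, 1 ≤ l i ∧ l i ≤ K) ∧
        c * ((A.card : ℝ) ^ k * B.card) ^ (1 - ε') ≤ (dilateSum k l A B).card) :
    (∀ B : Finset ℤ, B.Nonempty → ∃ l : ℕ → ℕ, (∀ i, 1 ≤ l i ∧ l i ≤ K) ∧
        c / (K : ℝ) ^ k * (A.card : ℝ) ^ ((k : ℝ) - ε) * (B.card : ℝ) ^ (1 - ε) ≤
          (dilateSum k l A B).card) ∧
      (∃ l : ℕ → ℕ, l 0 = 1 ∧ (∀ i, 1 ≤ l i ∧ l i ≤ K) ∧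
        c / (K : ℝ) ^ k * (A.card : ℝ) ^ ((k : ℝ) - ε) ≤ (dilateSum k l A {0}).card) ∧
      c / (K : ℝ) ^ k * ((dilates K A).card : ℝ) ^ ((k : ℝ) - ε) ≤
        (sumSet k (dilates K A)).card := by
  have hkr : (1 : ℝ) ≤ k := by exact_mod_cast hk
  have hAc : (1 : ℝ) ≤ A.card := by exact_mod_cast card_pos.2 hA
  have hA0 : (0 : ℝ) < A.card := by linarith
  have hke : (k + 1) * ε' ≤ ε := by nlinarith
  have hke' : k * ε' ≤ ε := by nlinarith
  have hee : ε' ≤ ε := by nlinarith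
  have hpow : ∀ B : Finset ℤ, B.Nonempty → ((A.card : ℝ) ^ k * B.card) ^ (1 - ε') =
      (A.card : ℝ) ^ ((k : ℝ) - k * ε') * (B.card : ℝ) ^ (1 - ε') := by
    intro B hB
    rw [Real.mul_rpow (by positivity) (by positivity), ← Real.rpow_natCast,
      ← Real.rpow_mul hA0.le]
    congr 2
    ring
  have hK : 1 ≤ K := by
    obtain ⟨l, hl, -⟩ := H A hA
    exact (hl 0).1.trans (hl 0).2
  have hKr : (1 : ℝ) ≤ K := by exact_mod_cast hK
  have hK0 : (0 : ℝ) < K := by linarith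
  have hKk : (1 : ℝ) ≤ (K : ℝ) ^ k := one_le_pow₀ hKr
  have hcc : c / (K : ℝ) ^ k ≤ c := div_le_self hc.le hKk
  have hw : ∀ x y : ℝ, 0 ≤ x → c * x ≤ y → c / (K : ℝ) ^ k * x ≤ y := fun x y hx hxy =>
    (mul_le_mul_of_nonneg_right hcc hx).trans hxy
  have hone : ∃ l : ℕ → ℕ, l 0 = 1 ∧ (∀ i, 1 ≤ l i ∧ l i ≤ K) ∧
      c * (A.card : ℝ) ^ ((k : ℝ) - ε) ≤ (dilateSum k l A {0}).card := by
    obtain ⟨l, hl, h⟩ := H A hA
    obtain ⟨n, rfl⟩ : ∃ n, k = n + 1 := ⟨k - 1, by omega⟩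
    refine ⟨fun i => if i = 0 then 1 else l i, by simp, ?_, ?_⟩
    · intro i
      by_cases hi : i = 0
      · simp [hi, hK]
      · simp [hi, (hl i).1, (hl i).2]
    · have h3 : ((dilateSum (n + 1) l A A).card : ℝ) ≤
          A.card * (dilateSum (n + 1) (fun i => if i = 0 then 1 else l i) A {0}).card := by
        exact_mod_cast card_drop n l A
      have h4 := h.trans h3
      rw [hpow A hA] at h4
      have h5 : (A.card : ℝ) ^ (((n + 1 : ℕ) : ℝ) - (n + 1 : ℕ) * ε') * (A.card : ℝ) ^ (1 - ε') =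
          A.card * (A.card : ℝ) ^ (((n + 1 : ℕ) : ℝ) - ((n + 1 : ℕ) + 1) * ε') := by
        have h6 : (A.card : ℝ) * (A.card : ℝ) ^ (((n + 1 : ℕ) : ℝ) - ((n + 1 : ℕ) + 1) * ε') =
            (A.card : ℝ) ^ (1 + (((n + 1 : ℕ) : ℝ) - ((n + 1 : ℕ) + 1) * ε')) := by
          rw [Real.rpow_add hA0, Real.rpow_one]
        rw [h6, ← Real.rpow_add hA0]
        congr 1
        ring
      rw [h5, ← mul_assoc, mul_comm c, mul_assoc] at h4
      refine le_trans ?_ (le_of_mul_le_mul_left h4 hA0)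
      refine mul_le_mul_of_nonneg_left ?_ hc.le
      exact Real.rpow_le_rpow_of_exponent_le hAc (by linarith)
  have hAX : A.card ≤ (dilates K A).card := card_le_card fun a ha =>
    mem_image.2 ⟨(1, a), mem_product.2 ⟨mem_Icc.2 ⟨le_rfl, hK⟩, ha⟩, by simp⟩
  have hAX' : (A.card : ℝ) ≤ (dilates K A).card := by exact_mod_cast hAX
  have hXA : ((dilates K A).card : ℝ) ≤ K * A.card := by exact_mod_cast dilates_card_le K A
  have hX : c / (K : ℝ) ^ k * ((dilates K A).card : ℝ) ^ ((k : ℝ) - ε) ≤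
      c * (A.card : ℝ) ^ ((k : ℝ) - ε) := by
    rw [div_mul_eq_mul_div, div_le_iff₀ (by positivity), mul_assoc]
    refine mul_le_mul_of_nonneg_left ?_ hc.le
    rcases le_or_gt 0 ((k : ℝ) - ε) with h | h
    · refine (Real.rpow_le_rpow (by positivity) hXA h).trans ?_
      rw [Real.mul_rpow hK0.le hA0.le, mul_comm]
      refine mul_le_mul_of_nonneg_left ?_ (by positivity)
      rw [← Real.rpow_natCast]
      exact Real.rpow_le_rpow_of_exponent_le hKr (by
        have : 0 < ε := lt_of_lt_of_le (by positivity) h2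
        linarith)
    · refine (Real.rpow_le_rpow_of_nonpos hA0 hAX' h.le).trans ?_
      exact le_mul_of_one_le_right (by positivity) hKk
  obtain ⟨l, hl0, hl, h1⟩ := hone
  refine ⟨fun B hB => ?_, ⟨l, hl0, hl, hw _ _ (by positivity) h1⟩, ?_⟩
  · obtain ⟨l', hl', h⟩ := H B hB
    refine ⟨l', hl', ?_⟩
    rw [mul_assoc]
    refine hw _ _ (by positivity) (le_trans ?_ h)
    have hBc : (1 : ℝ) ≤ B.card := by exact_mod_cast card_pos.2 hB
    rw [hpow B hB]
    refine mul_le_mul_of_nonneg_left ?_ hc.le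
    refine mul_le_mul (Real.rpow_le_rpow_of_exponent_le hAc (by linarith))
      (Real.rpow_le_rpow_of_exponent_le hBc (by linarith)) (by positivity) (by positivity)
  · refine hX.trans (h1.trans ?_)
    exact_mod_cast card_le_card (dilateSum_sub hl A)

lemma prodSet_mono {k : ℕ} {A A' : Finset ℤ} (h : A' ⊆ A) : prodSet k A' ⊆ prodSet k A :=
  image_subset_image (Fintype.piFinset_subset _ _ fun _ => h)

lemma dilateSum_mono {k : ℕ} {l : ℕ → ℕ} {A A' : Finset ℤ} (h : A' ⊆ A) (B : Finset ℤ) :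
    dilateSum k l A' B ⊆ dilateSum k l A B :=
  image_subset_image (product_subset_product (Fintype.piFinset_subset _ _ fun _ => h)
    (Subset.refl _))

lemma sub_dilates {K : ℕ} (hK : 1 ≤ K) (A : Finset ℤ) : A ⊆ dilates K A := fun a ha =>
  mem_image.2 ⟨(1, a), mem_product.2 ⟨mem_Icc.2 ⟨le_rfl, hK⟩, ha⟩, by simp⟩

lemma prodSet_nonempty {k : ℕ} {A : Finset ℤ} (hA : A.Nonempty) : (prodSet k A).Nonempty := by
  obtain ⟨a, ha⟩ := hA
  exact ⟨_, mem_image_of_mem _ (Fintype.mem_piFinset.2 fun _ => ha)⟩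

/-- a passage to a subset with at least half of the elements -/
lemma half_pow {x y e c : ℝ} {n : ℕ} (hc : 0 < c) (hx : 1 ≤ x) (hxy : x ≤ 2 * y) (hy : 1 ≤ y)
    (he : e ≤ n) : c / 2 ^ n * x ^ e ≤ c * y ^ e ∨ y ≤ x ∧ c / 2 ^ n * x ^ e ≤ c * y ^ e ∨
      x < y := by
  have h2 : (1 : ℝ) ≤ 2 ^ n := one_le_pow₀ (by norm_num)
  rcases lt_or_ge x y with h | h
  · exact Or.inr (Or.inr h)
  left
  rw [div_mul_eq_mul_div, div_le_iff₀ (by positivity), mul_assoc]
  refine mul_le_mul_of_nonneg_left ?_ hc.le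
  rcases le_or_gt 0 e with h0 | h0
  · refine (Real.rpow_le_rpow (by linarith) hxy h0).trans ?_
    rw [Real.mul_rpow (by norm_num) (by linarith), mul_comm]
    refine mul_le_mul_of_nonneg_left ?_ (by positivity)
    rw [← Real.rpow_natCast]
    exact Real.rpow_le_rpow_of_exponent_le (by norm_num) he
  · refine (Real.rpow_le_rpow_of_nonpos (by linarith) h h0.le).trans ?_
    exact le_mul_of_one_le_right (by positivity) h2

/-- the case of non-zero integers -/
lemma base_ne (k m : ℕ) (hk : 1 ≤ k) {ε ε' : ℝ} (hε : 0 < ε) (hε' : 0 < ε') (hε1 : ε' ≤ 1) :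
    ∃ (K : ℕ) (c : ℝ), 1 ≤ K ∧ 0 < c ∧ c ≤ 1 ∧ ∀ A : Finset ℤ, A.Nonempty → (0 : ℤ) ∉ A →
      c * (A.card : ℝ) ^ ((k : ℝ) - ε) ≤ (prodSet k A).card ∨
      ∀ B : Finset ℤ, B.Nonempty → ∃ l : ℕ → ℕ, (∀ i, 1 ≤ l i ∧ l i ≤ K) ∧
        c * ((A.card : ℝ) ^ m * B.card) ^ (1 - ε') ≤ (dilateSum m l A B).card := by
  rcases Nat.lt_or_ge k 2 with hk2 | hk2
  · -- one factor
    obtain rfl : k = 1 := by omega
    refine ⟨1, 1, le_rfl, one_pos, le_rfl, fun A hA _ => Or.inl ?_⟩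
    have hAc : (1 : ℝ) ≤ A.card := by exact_mod_cast card_pos.2 hA
    have h1 : A.card ≤ (prodSet 1 A).card := by
      refine card_le_card fun a ha => mem_image.2 ⟨fun _ => a, Fintype.mem_piFinset.2 fun _ => ha, ?_⟩
      simp
    have h2 : (A.card : ℝ) ≤ (prodSet 1 A).card := by exact_mod_cast h1
    rw [one_mul]
    refine le_trans ?_ h2
    conv_rhs => rw [← Real.rpow_one (A.card : ℝ)]
    exact Real.rpow_le_rpow_of_exponent_le hAc (by push_cast; linarith)
  · obtain ⟨k', rfl⟩ : ∃ k', k = k' + 1 := ⟨k - 1, by omega⟩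
    obtain ⟨K₀, c₀, hc₀, H⟩ := Pool.Agent.T2H12.KO.main6 k' (by omega) m (η := min ε 1)
      (lt_min hε one_pos) (min_le_right _ _) hε' hε1
    refine ⟨max K₀ 1, min c₀ 1, le_max_right _ _, lt_min hc₀ one_pos, min_le_right _ _, ?_⟩
    intro A hA h0
    have hAc : (1 : ℝ) ≤ A.card := by exact_mod_cast card_pos.2 hA
    by_cases hfew : ((Pool.Agent.Y359.PE.pk (k' + 1) A).card : ℝ) ≤
        (A.card : ℝ) ^ ((k' : ℝ) + 1 - min ε 1)
    · right
      intro B hB
      obtain ⟨l, hl, h⟩ := H A hA h0 hfew B hB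
      refine ⟨l, fun i => ⟨(hl i).1, (hl i).2.trans (le_max_left _ _)⟩, le_trans ?_ h⟩
      exact mul_le_mul_of_nonneg_right (min_le_left _ _) (by positivity)
    · left
      rw [not_le] at hfew
      have h1 : ((Pool.Agent.Y359.PE.pk (k' + 1) A).card : ℝ) = (prodSet (k' + 1) A).card := rfl
      rw [h1] at hfew
      refine le_trans ?_ hfew.le
      have h2 : (A.card : ℝ) ^ (((k' + 1 : ℕ) : ℝ) - ε) ≤
          (A.card : ℝ) ^ ((k' : ℝ) + 1 - min ε 1) := by
        refine Real.rpow_le_rpow_of_exponent_le hAc ?_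
        have := min_le_left ε 1
        push_cast
        linarith
      have h3 : (0 : ℝ) ≤ (A.card : ℝ) ^ (((k' + 1 : ℕ) : ℝ) - ε) := by positivity
      have h4 : min c₀ 1 * (A.card : ℝ) ^ (((k' + 1 : ℕ) : ℝ) - ε) ≤
          1 * (A.card : ℝ) ^ (((k' + 1 : ℕ) : ℝ) - ε) :=
        mul_le_mul_of_nonneg_right (min_le_right _ _) h3
      linarith

/-- all finite non-empty sets of integers -/
lemma base (k m : ℕ) (hk : 1 ≤ k) {ε ε' : ℝ} (hε : 0 < ε) (hε' : 0 < ε') (hε1 : ε' ≤ 1) :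
    ∃ (K : ℕ) (c : ℝ), 1 ≤ K ∧ 0 < c ∧ ∀ A : Finset ℤ, A.Nonempty →
      c * (A.card : ℝ) ^ ((k : ℝ) - ε) ≤ (prodSet k A).card ∨
      ∀ B : Finset ℤ, B.Nonempty → ∃ l : ℕ → ℕ, (∀ i, 1 ≤ l i ∧ l i ≤ K) ∧
        c * ((A.card : ℝ) ^ m * B.card) ^ (1 - ε') ≤ (dilateSum m l A B).card := by
  obtain ⟨K, c, hK, hc, hc1, H⟩ := base_ne k m hk hε hε' hε1
  refine ⟨K, c / 2 ^ (k + m), hK, by positivity, fun A hA => ?_⟩
  have h2 : (1 : ℝ) ≤ 2 ^ (k + m) := one_le_pow₀ (by norm_num)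
  have hcc : c / 2 ^ (k + m) ≤ c := div_le_self hc.le h2
  by_cases h0 : (0 : ℤ) ∈ A
  swap
  · refine (H A hA h0).imp (fun h => ?_) fun h B hB => ?_
    · exact (mul_le_mul_of_nonneg_right hcc (by positivity)).trans h
    · obtain ⟨l, hl, h3⟩ := h B hB
      exact ⟨l, hl, (mul_le_mul_of_nonneg_right hcc (by positivity)).trans h3⟩
  set A₀ := A.erase 0 with hA₀
  have hsub : A₀ ⊆ A := erase_subset _ _
  have hcard : A.card = A₀.card + 1 := by
    rw [hA₀, card_erase_of_mem h0]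
    have := card_pos.2 hA
    omega
  rcases A₀.eq_empty_or_nonempty with he | hne
  · left
    rw [he, card_empty, zero_add] at hcard
    rw [hcard]
    simp only [Nat.cast_one, Real.one_rpow, mul_one]
    have h1 : (1 : ℝ) ≤ (prodSet k A).card := by exact_mod_cast card_pos.2 (prodSet_nonempty hA)
    linarith
  have hx : (1 : ℝ) ≤ A.card := by exact_mod_cast card_pos.2 hA
  have hy : (1 : ℝ) ≤ A₀.card := by exact_mod_cast card_pos.2 hne
  have hxy : (A.card : ℝ) ≤ 2 * A₀.card := by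
    rw [hcard]
    push_cast
    linarith
  have hyx : (A₀.card : ℝ) ≤ A.card := by exact_mod_cast card_le_card hsub
  have h2k : (1 : ℝ) ≤ 2 ^ k := one_le_pow₀ (by norm_num)
  have h2m : (1 : ℝ) ≤ 2 ^ m := one_le_pow₀ (by norm_num)
  rcases H A₀ hne (notMem_erase _ _) with h | h
  · left
    have h3 : ((prodSet k A₀).card : ℝ) ≤ (prodSet k A).card := by
      exact_mod_cast card_le_card (prodSet_mono hsub)
    have h4 : c / 2 ^ k * (A.card : ℝ) ^ ((k : ℝ) - ε) ≤ c * (A₀.card : ℝ) ^ ((k : ℝ) - ε) := by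
      rcases half_pow (e := (k : ℝ) - ε) (n := k) hc hx hxy hy (by linarith) with h5 | ⟨-, h5⟩ | h5
      · exact h5
      · exact h5
      · linarith
    refine le_trans (mul_le_mul_of_nonneg_right ?_ (by positivity)) (h4.trans (h.trans h3))
    rw [pow_add]
    refine div_le_div_of_nonneg_left hc.le (by positivity) ?_
    nlinarith
  · right
    intro B hB
    obtain ⟨l, hl, h3⟩ := h B hB
    refine ⟨l, hl, ?_⟩
    have hB1 : (1 : ℝ) ≤ B.card := by exact_mod_cast card_pos.2 hB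
    have h4 : ((dilateSum m l A₀ B).card : ℝ) ≤ (dilateSum m l A B).card := by
      exact_mod_cast card_le_card (dilateSum_mono hsub B)
    refine le_trans ?_ (h3.trans h4)
    rw [div_mul_eq_mul_div, div_le_iff₀ (by positivity), mul_assoc]
    refine mul_le_mul_of_nonneg_left ?_ hc.le
    have h5 : (A.card : ℝ) ^ m * B.card ≤ 2 ^ m * ((A₀.card : ℝ) ^ m * B.card) := by
      rw [← mul_assoc, ← mul_pow]
      exact mul_le_mul_of_nonneg_right (pow_le_pow_left₀ (by linarith) hxy m) (by linarith)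
    refine (Real.rpow_le_rpow (by positivity) h5 (by linarith)).trans ?_
    rw [Real.mul_rpow (by positivity) (by positivity), mul_comm]
    refine mul_le_mul_of_nonneg_left ?_ (by positivity)
    calc ((2 : ℝ) ^ m) ^ (1 - ε') ≤ ((2 : ℝ) ^ m) ^ (1 : ℝ) :=
          Real.rpow_le_rpow_of_exponent_le h2m (by linarith)
      _ = 2 ^ m := Real.rpow_one _
      _ ≤ 2 ^ (k + m) := pow_le_pow_right₀ (by norm_num) (by omega)

/-- **The sum-product theorem for sums of bounded dilates of an arbitrary finite set.** -/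
theorem result (k m : ℕ) (hk : 1 ≤ k) (hm : 1 ≤ m) (ε : ℝ) (hε : 0 < ε) :
    ∃ (K : ℕ) (c : ℝ), 1 ≤ K ∧ 0 < c ∧ ∀ A : Finset ℤ, A.Nonempty →
      -- `A` has many products, or sums of dilates of `A` are large
      (c * (A.card : ℝ) ^ ((k : ℝ) - ε) ≤ (prodSet k A).card ∨
        (∀ B : Finset ℤ, B.Nonempty → ∃ l : ℕ → ℕ, (∀ i, 1 ≤ l i ∧ l i ≤ K) ∧
          c * (A.card : ℝ) ^ ((m : ℝ) - ε) * (B.card : ℝ) ^ (1 - ε) ≤
            (dilateSum m l A B).card) ∧
        ∃ l : ℕ → ℕ, l 0 = 1 ∧ (∀ i, 1 ≤ l i ∧ l i ≤ K) ∧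
          c * (A.card : ℝ) ^ ((m : ℝ) - ε) ≤ (dilateSum m l A {0}).card) ∧
      -- the sum-product inequality for the union of the dilates of `A` by `1, ..., K`
      (c * ((dilates K A).card : ℝ) ^ ((k : ℝ) - ε) ≤ (prodSet k (dilates K A)).card ∨
        c * ((dilates K A).card : ℝ) ^ ((m : ℝ) - ε) ≤ (sumSet m (dilates K A)).card) := by
  have hmr : (1 : ℝ) ≤ m := by exact_mod_cast hm
  have hm0 : (0 : ℝ) < m := by linarith
  set ε' : ℝ := min ε 1 / (2 * m) with hεd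
  have hmin : 0 < min ε 1 := lt_min hε one_pos
  have hε' : 0 < ε' := by positivity
  have hke : 2 * m * ε' = min ε 1 := by
    rw [hεd]
    field_simp
  have hε1 : ε' ≤ 1 := by
    have := min_le_right ε 1
    nlinarith
  obtain ⟨K, c, hK, hc, H⟩ := base k m hk hε hε' hε1
  have hKr : (1 : ℝ) ≤ K := by exact_mod_cast hK
  have hK0 : (0 : ℝ) < K := by linarith
  have hKk : (1 : ℝ) ≤ (K : ℝ) ^ k := one_le_pow₀ hKr
  have hKm : (1 : ℝ) ≤ (K : ℝ) ^ m := one_le_pow₀ hKr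
  set c' : ℝ := c / ((K : ℝ) ^ k * (K : ℝ) ^ m) with hc'd
  have hc' : 0 < c' := by positivity
  have hc1 : c' ≤ c := div_le_self hc.le (by nlinarith)
  have hc2 : c' ≤ c / (K : ℝ) ^ m := by
    rw [hc'd]
    exact div_le_div_of_nonneg_left hc.le (by positivity) (by nlinarith)
  have hc3 : c' ≤ c / (K : ℝ) ^ k := by
    rw [hc'd]
    exact div_le_div_of_nonneg_left hc.le (by positivity) (by nlinarith)
  refine ⟨K, c', hK, hc', fun A hA => ?_⟩
  have hAc : (1 : ℝ) ≤ A.card := by exact_mod_cast card_pos.2 hA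
  have hA0 : (0 : ℝ) < A.card := by linarith
  rcases H A hA with h | h
  · refine ⟨Or.inl ((mul_le_mul_of_nonneg_right hc1 (by positivity)).trans h), Or.inl ?_⟩
    have h3 : ((prodSet k A).card : ℝ) ≤ (prodSet k (dilates K A)).card := by
      exact_mod_cast card_le_card (prodSet_mono (sub_dilates hK A))
    refine le_trans ?_ (h.trans h3)
    have hAX : A.card ≤ (dilates K A).card := card_le_card (sub_dilates hK A)
    have hAX' : (A.card : ℝ) ≤ (dilates K A).card := by exact_mod_cast hAX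
    have hXA : ((dilates K A).card : ℝ) ≤ K * A.card := by exact_mod_cast dilates_card_le K A
    refine (mul_le_mul_of_nonneg_right hc3 (by positivity)).trans ?_
    rw [div_mul_eq_mul_div, div_le_iff₀ (by positivity), mul_assoc]
    refine mul_le_mul_of_nonneg_left ?_ hc.le
    rcases le_or_gt 0 ((k : ℝ) - ε) with h5 | h5
    · refine (Real.rpow_le_rpow (by positivity) hXA h5).trans ?_
      rw [Real.mul_rpow hK0.le hA0.le, mul_comm]
      refine mul_le_mul_of_nonneg_left ?_ (by positivity)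
      rw [← Real.rpow_natCast]
      exact Real.rpow_le_rpow_of_exponent_le hKr (by linarith)
    · refine (Real.rpow_le_rpow_of_nonpos hA0 hAX' h5.le).trans ?_
      exact le_mul_of_one_le_right (by positivity) hKk
  · obtain ⟨h1, ⟨l, hl0, hl, h2⟩, h3⟩ := three_of (ε := ε) hm hε'
      (by rw [hke]; exact min_le_left _ _) hc hA h
    refine ⟨Or.inr ⟨fun B hB => ?_, l, hl0, hl,
      (mul_le_mul_of_nonneg_right hc2 (by positivity)).trans h2⟩,
      Or.inr ((mul_le_mul_of_nonneg_right hc2 (by positivity)).trans h3)⟩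
    obtain ⟨l', hl', h4⟩ := h1 B hB
    refine ⟨l', hl', le_trans ?_ h4⟩
    rw [mul_assoc, mul_assoc]
    exact mul_le_mul_of_nonneg_right hc2 (by positivity)

end Pool.Agent.Results.MP_120218_co.KFoldForBoundedDilates
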