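import Mathlib
import Pool.Agent.T2H12.KR.Base

/-!
# MP_120218_co: the `k`-fold sum-product conjecture for almost all sums of small dilates

For all `k, m ≥ 1` and `ε > 0` there are `K`, `δ > 0`, `c > 0` such that for every finite non-empty set
`A` of integers `|A^k| ≥ c |A|^(k-ε)`, or for every finite set `H` of non-zero integers of absolute
value at most `|A|^δ` and every finite non-empty set `B` of integers all but at most `K |H|^(m-1)` of the
`|H|^m` tuples `l` of elements of `H` satisfy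
`|l_0 A + ... + l_(m-1) A + B| ≥ c |A|^(m-ε) |B|^(1-ε)`.
-/

set_option autoImplicit false

namespace Pool.Agent.T2H12.Old.KFoldIntegerDilates

open Finset
open scoped Classical

/-- The set of all products of `k` elements of `A`. -/
def prodSet (k : ℕ) (A : Finset ℤ) : Finset ℤ :=
  (Fintype.piFinset fun _ : Fin k => A).image fun f => ∏ i, f i

/-- The set `l 0 A + l 1 A + ... + l (m - 1) A + B`. -/
def dilateSum (m : ℕ) (l : Fin m → ℤ) (A B : Finset ℤ) : Finset ℤ :=
  ((Fintype.piFinset fun _ : Fin m => A) ×ˢ B).image fun s => ∑ i, l i * s.1 i + s.2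

/-- The tuples `l` of `m` elements of `H` for which `l 0 A + l 1 A + ... + l (m - 1) A + B` has fewer
than `x` elements. -/
noncomputable def badTuples (m : ℕ) (H A B : Finset ℤ) (x : ℝ) : Finset (Fin m → ℤ) :=
  (Fintype.piFinset fun _ : Fin m => H).filter fun l => ((dilateSum m l A B).card : ℝ) < x

theorem result (k m : ℕ) (hk : 1 ≤ k) (hm : 1 ≤ m) (ε : ℝ) (hε : 0 < ε) :
    ∃ (K : ℕ) (δ c : ℝ), 0 < δ ∧ 0 < c ∧ ∀ A : Finset ℤ, A.Nonempty →
      c * (A.card : ℝ) ^ ((k : ℝ) - ε) ≤ (prodSet k A).card ∨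
      ∀ H : Finset ℤ, (0 : ℤ) ∉ H → (∀ h ∈ H, |(h : ℝ)| ≤ (A.card : ℝ) ^ δ) →
      ∀ B : Finset ℤ, B.Nonempty →
        (badTuples m H A B (c * (A.card : ℝ) ^ ((m : ℝ) - ε) * (B.card : ℝ) ^ (1 - ε))).card ≤
          K * H.card ^ (m - 1) := by
  obtain ⟨K, δ, c, hδ, hc, -, HH⟩ := Pool.Agent.T2H12.KR.shape k m hk hm hε
  exact ⟨K, δ, c, hδ, hc, HH⟩

end Pool.Agent.T2H12.Old.KFoldIntegerDilates
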