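import Mathlib
import Pool.Agent.T2H12.KF.Lines

/-!
# Sets with multiplicative lines in many directions have almost maximal `k`-fold sumsets

The `p`-line of `a` in `A` is the set of all `x` in `A` which differ from `a` by a power of `p`.
If, for a set `P` of primes, every `p`-line in `A` has at least `E p ≥ E₀` elements, and the
lengths `E p` sum to at least `C log |A|`, then `|kA + B| ≥ (|A| ^ k |B|) ^ (1 - ε)` for every
finite set `B` of integers.
-/

set_option autoImplicit false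

namespace Pool.Agent.Results.MP_120218_co.LinesInManyDirections

open Finset
open scoped Classical

theorem result (k : ℕ) (ε : ℝ) (hε : 0 < ε) :
    ∃ E₀ C : ℝ, 0 < E₀ ∧ 0 < C ∧
      ∀ (A B : Finset ℤ) (P : Finset ℕ) (E : ℕ → ℕ), A.Nonempty → B.Nonempty → (0 : ℤ) ∉ A →
        (∀ p ∈ P, p.Prime) → (∀ p ∈ P, E₀ ≤ E p) →
        (∀ a ∈ A, ∀ p ∈ P,
          E p ≤ (A.filter fun x => ∃ i j : ℕ, x * (p : ℤ) ^ i = a * (p : ℤ) ^ j).card) →
        C * Real.log A.card ≤ ∑ p ∈ P, (E p : ℝ) →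
        ((A.card : ℝ) ^ k * B.card) ^ (1 - ε) ≤
          ((((Fintype.piFinset fun _ : Fin k => A) ×ˢ B).image
            fun s => (∑ i, s.1 i) + s.2).card : ℝ) := by
  obtain ⟨E₀, C, hE₀, hC, h⟩ := Pool.Agent.T2H12.KF.lines k (min ε 1)
    (lt_min hε one_pos) (min_le_right _ _)
  refine ⟨E₀, C, hE₀, hC, ?_⟩
  intro A B P E hA hB h0 hP hE hl hs
  have h1 := h A B P E hA hB h0 hP hE hl hs
  have hA1 : (1 : ℝ) ≤ A.card := by exact_mod_cast card_pos.2 hA
  have hB1 : (1 : ℝ) ≤ B.card := by exact_mod_cast card_pos.2 hB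
  have h2 : (1 : ℝ) ≤ (A.card : ℝ) ^ k * B.card := by
    have := one_le_pow₀ hA1 (n := k)
    nlinarith
  have h3 : ((A.card : ℝ) ^ k * B.card) ^ (1 - ε) ≤
      ((A.card : ℝ) ^ k * B.card) ^ (1 - min ε 1) :=
    Real.rpow_le_rpow_of_exponent_le h2 (by linarith [min_le_left ε 1])
  exact h3.trans h1

end Pool.Agent.Results.MP_120218_co.LinesInManyDirections
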