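import Mathlib
import Pool.Agent.T2H12.KJ.Fin3

/-!
# Sets whose popular prime part depends on at most `C log |A|` primes

The `k`-fold sum-product conjecture of Erdős and Szemerédi for such sets, with `kA` replaced by a
sum of `k` dilates of `A` by bounded positive integers.
-/

set_option autoImplicit false

namespace Pool.Agent.Results.MP_120218_co.LogManyPopularPrimes

open Finset
open scoped Classical

/-- The set of all products of `k` elements of `A`. -/
def prodSet (k : ℕ) (A : Finset ℤ) : Finset ℤ :=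
  (Fintype.piFinset fun _ : Fin k => A).image fun f => ∏ i, f i

/-- The set of all sums of `k` elements of `A`. -/
def sumSet (k : ℕ) (A : Finset ℤ) : Finset ℤ :=
  (Fintype.piFinset fun _ : Fin k => A).image fun f => ∑ i, f i

/-- The union `A ∪ 2 A ∪ ... ∪ K A` of the dilates of `A` by `1, ..., K`. -/
def dilates (K : ℕ) (A : Finset ℤ) : Finset ℤ :=
  (Finset.Icc 1 K ×ˢ A).image fun s => (s.1 : ℤ) * s.2

/-- The set `l 0 A + l 1 A + ... + l (k - 1) A + B`. -/
def dilateSum (k : ℕ) (l : ℕ → ℕ) (A B : Finset ℤ) : Finset ℤ :=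
  ((Fintype.piFinset fun _ : Fin k => A) ×ˢ B).image
    fun s => ∑ i : Fin k, (l (i : ℕ) : ℤ) * s.1 i + s.2

/-- The vector of the valuations of `a` at the primes of `Q`. -/
def vals (Q : Finset ℕ) (a : ℤ) : Q → ℕ := fun q => a.natAbs.factorization q

/-- The dimension over `ℚ` of the span of the differences of the vectors of the valuations at `Q`
of the elements of `A`. -/
noncomputable def rank (Q : Finset ℕ) (A : Finset ℤ) : ℕ :=
  Module.finrank ℚ (Submodule.span ℚ {w : Q → ℚ | ∃ a ∈ A, ∃ b ∈ A, ∀ q : Q,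
    w q = (vals Q a q : ℚ) - (vals Q b q : ℚ)})

/-- The prime `p` is popular: no value of the valuation at `p` is taken by all but at most
`|A| / L` elements of `A`. -/
def Popular (L : ℝ) (A : Finset ℤ) (p : ℕ) : Prop :=
  p.Prime ∧ ∀ e : ℕ, (A.card : ℝ) < L * ((A.filter fun a => a.natAbs.factorization p ≠ e).card : ℝ)

/-- The `k`-fold product set is as large as possible, or there are large sums of `k` dilates of `A`
by positive integers at most `K`, even when an arbitrary set `B` is added. In particular the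
inequality of the conjecture holds for the union of the dilates of `A` by `1, ..., K`. -/
def Dichotomy (k K : ℕ) (ε c : ℝ) (A : Finset ℤ) : Prop :=
  (c * (A.card : ℝ) ^ ((k : ℝ) - ε) ≤ (prodSet k A).card ∨
  ((∀ B : Finset ℤ, B.Nonempty → ∃ l : ℕ → ℕ, (∀ i, 1 ≤ l i ∧ l i ≤ K) ∧
      c * (A.card : ℝ) ^ ((k : ℝ) - ε) * (B.card : ℝ) ^ (1 - ε) ≤ (dilateSum k l A B).card) ∧
    ∃ l : ℕ → ℕ, l 0 = 1 ∧ (∀ i, 1 ≤ l i ∧ l i ≤ K) ∧
      c * (A.card : ℝ) ^ ((k : ℝ) - ε) ≤ (dilateSum k l A {0}).card)) ∧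
  c * ((dilates K A).card : ℝ) ^ ((k : ℝ) - ε) ≤
    max ((sumSet k (dilates K A)).card : ℝ) (prodSet k (dilates K A)).card

/-- one summand can be taken with the dilation `1` -/
lemma card_drop (n : ℕ) (l : ℕ → ℕ) (A : Finset ℤ) :
    (dilateSum (n + 1) l A A).card ≤
      A.card * (dilateSum (n + 1) (fun i => if i = 0 then 1 else l i) A {0}).card := by
  set l' : ℕ → ℕ := fun i => if i = 0 then 1 else l i with hl'
  rw [← card_product]
  refine le_trans (card_le_card ?_)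
    (card_image_le (s := A ×ˢ dilateSum (n + 1) l' A {0}) (f := fun s => (l 0 : ℤ) * s.1 + s.2))
  intro x hx
  obtain ⟨⟨f, b⟩, hfb, rfl⟩ := mem_image.1 hx
  obtain ⟨hf, hb⟩ := mem_product.1 hfb
  have hf' : ∀ i, f i ∈ A := fun i => Fintype.mem_piFinset.1 hf i
  refine mem_image.2 ⟨(f 0, ∑ i : Fin (n + 1), (l' (i : ℕ) : ℤ) *
    (Fin.cons b (fun j : Fin n => f j.succ) : Fin (n + 1) → ℤ) i + 0), ?_, ?_⟩
  · rw [mem_product]
    refine ⟨hf' 0, mem_image.2 ⟨(Fin.cons b (fun j : Fin n => f j.succ), 0), ?_, rfl⟩⟩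
    rw [mem_product]
    refine ⟨Fintype.mem_piFinset.2 fun i => ?_, mem_singleton_self _⟩
    refine Fin.cases ?_ (fun j => ?_) i
    · simpa using hb
    · simpa using hf' j.succ
  · simp only [Fin.sum_univ_succ, Fin.cons_zero, Fin.cons_succ, Fin.val_zero, Fin.val_succ]
    have h0 : l' 0 = 1 := by rw [hl']; simp
    have h1 : ∀ j : Fin n, l' ((j : ℕ) + 1) = l ((j : ℕ) + 1) := fun j => by rw [hl']; simp
    rw [h0]
    simp only [h1]
    push_cast
    ring

lemma dilateSum_sub {k K : ℕ} {l : ℕ → ℕ} (hl : ∀ i, 1 ≤ l i ∧ l i ≤ K) (A : Finset ℤ) :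
    dilateSum k l A {0} ⊆ sumSet k (dilates K A) := by
  intro x hx
  obtain ⟨⟨f, b⟩, hfb, rfl⟩ := mem_image.1 hx
  obtain ⟨hf, hb⟩ := mem_product.1 hfb
  refine mem_image.2 ⟨fun i => (l (i : ℕ) : ℤ) * f i, Fintype.mem_piFinset.2 fun i => ?_, ?_⟩
  · exact mem_image.2 ⟨(l (i : ℕ), f i), mem_product.2 ⟨mem_Icc.2 (hl _),
      Fintype.mem_piFinset.1 hf i⟩, rfl⟩
  · have h1 : b = 0 := mem_singleton.1 hb
    simp only [h1, add_zero]

lemma prodSet_sub {k K : ℕ} (hK : 1 ≤ K) (A : Finset ℤ) :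
    prodSet k A ⊆ prodSet k (dilates K A) := by
  have h1 : A ⊆ dilates K A := fun a ha =>
    mem_image.2 ⟨(1, a), mem_product.2 ⟨mem_Icc.2 ⟨le_rfl, hK⟩, ha⟩, by simp⟩
  exact image_subset_image (Fintype.piFinset_subset _ _ fun _ => h1)

lemma dilates_card_le (K : ℕ) (A : Finset ℤ) : (dilates K A).card ≤ K * A.card := by
  refine card_image_le.trans ?_
  rw [card_product, Nat.card_Icc, Nat.add_sub_cancel]

/-- from the general bound to the dichotomy -/
lemma dichotomy_of {k : ℕ} (hk : 1 ≤ k) {ε ε' : ℝ} (hε' : 0 < ε') (h2 : 2 * k * ε' ≤ ε)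
    {K : ℕ} {c : ℝ} (hc : 0 < c) {A : Finset ℤ} (hA : A.Nonempty)
    (H : c * (A.card : ℝ) ^ ((k : ℝ) - ε') ≤ (prodSet k A).card ∨
      ∀ B : Finset ℤ, B.Nonempty → ∃ l : ℕ → ℕ, (∀ i, 1 ≤ l i ∧ l i ≤ K) ∧
        c * ((A.card : ℝ) ^ k * B.card) ^ (1 - ε') ≤ (dilateSum k l A B).card) :
    c * (A.card : ℝ) ^ ((k : ℝ) - ε) ≤ (prodSet k A).card ∨
    ((∀ B : Finset ℤ, B.Nonempty → ∃ l : ℕ → ℕ, (∀ i, 1 ≤ l i ∧ l i ≤ K) ∧
        c * (A.card : ℝ) ^ ((k : ℝ) - ε) * (B.card : ℝ) ^ (1 - ε) ≤ (dilateSum k l A B).card) ∧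
      ∃ l : ℕ → ℕ, l 0 = 1 ∧ (∀ i, 1 ≤ l i ∧ l i ≤ K) ∧
        c * (A.card : ℝ) ^ ((k : ℝ) - ε) ≤ (dilateSum k l A {0}).card) := by
  have hkr : (1 : ℝ) ≤ k := by exact_mod_cast hk
  have hAc : (1 : ℝ) ≤ A.card := by exact_mod_cast card_pos.2 hA
  have hA0 : (0 : ℝ) < A.card := by linarith
  have hke : (k + 1) * ε' ≤ ε := by nlinarith
  have hke' : k * ε' ≤ ε := by nlinarith
  have hee : ε' ≤ ε := by nlinarith
  rcases H with H | H
  · left
    refine le_trans (mul_le_mul_of_nonneg_left ?_ hc.le) H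
    exact Real.rpow_le_rpow_of_exponent_le hAc (by linarith)
  · right
    have hpow : ∀ B : Finset ℤ, B.Nonempty → ((A.card : ℝ) ^ k * B.card) ^ (1 - ε') =
        (A.card : ℝ) ^ ((k : ℝ) - k * ε') * (B.card : ℝ) ^ (1 - ε') := by
      intro B hB
      rw [Real.mul_rpow (by positivity) (by positivity), ← Real.rpow_natCast,
        ← Real.rpow_mul hA0.le]
      congr 2
      ring
    constructor
    · intro B hB
      obtain ⟨l, hl, h⟩ := H B hB
      refine ⟨l, hl, le_trans ?_ h⟩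
      have hBc : (1 : ℝ) ≤ B.card := by exact_mod_cast card_pos.2 hB
      rw [hpow B hB, mul_assoc]
      refine mul_le_mul_of_nonneg_left ?_ hc.le
      refine mul_le_mul (Real.rpow_le_rpow_of_exponent_le hAc (by linarith))
        (Real.rpow_le_rpow_of_exponent_le hBc (by linarith)) (by positivity) (by positivity)
    · obtain ⟨l, hl, h⟩ := H A hA
      have hK1 : 1 ≤ K := (hl 0).1.trans (hl 0).2
      obtain ⟨n, rfl⟩ : ∃ n, k = n + 1 := ⟨k - 1, by omega⟩
      refine ⟨fun i => if i = 0 then 1 else l i, by simp, ?_, ?_⟩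
      · intro i
        by_cases hi : i = 0
        · simp [hi, hK1]
        · simp [hi, (hl i).1, (hl i).2]
      · have h3 : ((dilateSum (n + 1) l A A).card : ℝ) ≤
            A.card * (dilateSum (n + 1) (fun i => if i = 0 then 1 else l i) A {0}).card := by
          exact_mod_cast card_drop n l A
        have h4 := h.trans h3
        rw [hpow A hA] at h4
        have h5 : (A.card : ℝ) ^ (((n + 1 : ℕ) : ℝ) - (n + 1 : ℕ) * ε') * (A.card : ℝ) ^ (1 - ε') =
            A.card * (A.card : ℝ) ^ (((n + 1 : ℕ) : ℝ) - ((n + 1 : ℕ) + 1) * ε') := by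
          have h6 : (A.card : ℝ) * (A.card : ℝ) ^ (((n + 1 : ℕ) : ℝ) - ((n + 1 : ℕ) + 1) * ε') =
              (A.card : ℝ) ^ (1 + (((n + 1 : ℕ) : ℝ) - ((n + 1 : ℕ) + 1) * ε')) := by
            rw [Real.rpow_add hA0, Real.rpow_one]
          rw [h6, ← Real.rpow_add hA0]
          congr 1
          ring
        rw [h5, ← mul_assoc, mul_comm c, mul_assoc] at h4
        refine le_trans ?_ (le_of_mul_le_mul_left h4 hA0)
        refine mul_le_mul_of_nonneg_left ?_ hc.le
        exact Real.rpow_le_rpow_of_exponent_le hAc (by linarith)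

/-- the dichotomy with the inequality for the union of the dilates -/
lemma dichotomy_of' {k : ℕ} (hk : 1 ≤ k) {ε ε' : ℝ} (hε' : 0 < ε') (h2 : 2 * k * ε' ≤ ε)
    {K : ℕ} (hK : 1 ≤ K) {c : ℝ} (hc : 0 < c) {A : Finset ℤ} (hA : A.Nonempty)
    (H : c * (A.card : ℝ) ^ ((k : ℝ) - ε') ≤ (prodSet k A).card ∨
      ∀ B : Finset ℤ, B.Nonempty → ∃ l : ℕ → ℕ, (∀ i, 1 ≤ l i ∧ l i ≤ K) ∧
        c * ((A.card : ℝ) ^ k * B.card) ^ (1 - ε') ≤ (dilateSum k l A B).card) :
    Dichotomy k K ε (c / (K : ℝ) ^ k) A := by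
  have hAc : (1 : ℝ) ≤ A.card := by exact_mod_cast card_pos.2 hA
  have hA0 : (0 : ℝ) < A.card := by linarith
  have hKr : (1 : ℝ) ≤ K := by exact_mod_cast hK
  have hK0 : (0 : ℝ) < K := by linarith
  have hKk : (1 : ℝ) ≤ (K : ℝ) ^ k := one_le_pow₀ hKr
  have hcc : c / (K : ℝ) ^ k ≤ c := div_le_self hc.le hKk
  have hD := dichotomy_of hk hε' h2 hc hA H
  have hAX : A.card ≤ (dilates K A).card := card_le_card fun a ha =>
    mem_image.2 ⟨(1, a), mem_product.2 ⟨mem_Icc.2 ⟨le_rfl, hK⟩, ha⟩, by simp⟩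
  have hAX' : (A.card : ℝ) ≤ (dilates K A).card := by exact_mod_cast hAX
  have hXA : ((dilates K A).card : ℝ) ≤ K * A.card := by exact_mod_cast dilates_card_le K A
  have hX : c / (K : ℝ) ^ k * ((dilates K A).card : ℝ) ^ ((k : ℝ) - ε) ≤
      c * (A.card : ℝ) ^ ((k : ℝ) - ε) := by
    rw [div_mul_eq_mul_div, div_le_iff₀ (by positivity), mul_assoc]
    refine mul_le_mul_of_nonneg_left ?_ hc.le
    rcases le_or_gt 0 ((k : ℝ) - ε) with h | h
    · refine (Real.rpow_le_rpow (by positivity) hXA h).trans ?_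
      rw [Real.mul_rpow hK0.le hA0.le, mul_comm]
      refine mul_le_mul_of_nonneg_left ?_ (by positivity)
      rw [← Real.rpow_natCast]
      exact Real.rpow_le_rpow_of_exponent_le hKr (by
        have : 0 < ε := lt_of_lt_of_le (by positivity) h2
        linarith)
    · refine (Real.rpow_le_rpow_of_nonpos hA0 hAX' h.le).trans ?_
      exact le_mul_of_one_le_right (by positivity) hKk
  have hw : ∀ x y : ℝ, 0 ≤ x → c * x ≤ y → c / (K : ℝ) ^ k * x ≤ y := fun x y hx hxy =>
    (mul_le_mul_of_nonneg_right hcc hx).trans hxy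
  refine ⟨?_, hX.trans ?_⟩
  · rcases hD with h | ⟨h1, l, hl0, hl, h2⟩
    · exact Or.inl (hw _ _ (by positivity) h)
    · refine Or.inr ⟨fun B hB => ?_, l, hl0, hl, hw _ _ (by positivity) h2⟩
      obtain ⟨l', hl', h3⟩ := h1 B hB
      refine ⟨l', hl', ?_⟩
      rw [mul_assoc] at h3 ⊢
      exact hw _ _ (by positivity) h3
  · rcases hD with h | ⟨-, l, -, hl, h2⟩
    · refine h.trans ((?_ : _ ≤ _).trans (le_max_right _ _))
      exact_mod_cast card_le_card (prodSet_sub hK A)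
    · refine h2.trans ((?_ : _ ≤ _).trans (le_max_left _ _))
      exact_mod_cast card_le_card (dilateSum_sub hl A)

/-- **The dichotomy.** -/
theorem result (k : ℕ) (hk : 1 ≤ k) (ε : ℝ) (hε : 0 < ε) :
    ∃ L : ℝ, 1 ≤ L ∧ ∀ C : ℝ, 0 < C → ∃ (K : ℕ) (δ c : ℝ), 0 < δ ∧ 0 < c ∧
      ∀ A : Finset ℤ, A.Nonempty → (0 : ℤ) ∉ A →
        -- the valuations at the popular primes are determined up to `|A| ^ δ` possibilities by
        -- those at `C log |A|` primes
        (∀ P Q : Finset ℕ, P ⊆ Q → (∀ q ∈ Q, q.Prime) → (∀ p, Popular L A p → p ∈ Q) →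
          (P.card : ℝ) ≤ C * Real.log A.card →
          (∀ a ∈ A, ((((A.filter fun b => vals P b = vals P a).image (vals Q)).card : ℕ) : ℝ) ≤
            (A.card : ℝ) ^ δ) → Dichotomy k K ε c A) ∧
        -- the rank of the popular part is at most `C log |A|`
        (∀ Q : Finset ℕ, (∀ q ∈ Q, q.Prime) → (∀ p, Popular L A p → p ∈ Q) →
          (rank Q A : ℝ) ≤ C * Real.log A.card → Dichotomy k K ε c A) ∧
        -- at most `C log |A|` popular primes
        (∀ Q : Finset ℕ, (∀ p, Popular L A p → p ∈ Q) → (Q.card : ℝ) ≤ C * Real.log A.card →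
          Dichotomy k K ε c A) ∧
        -- few prime factors on the average
        (∑ a ∈ A, (a.natAbs.primeFactors.card : ℝ) ≤ C * A.card * Real.log A.card →
          Dichotomy k K ε c A) ∧
        -- large subsets of intervals
        (∀ N : ℕ, 3 ≤ N → (∀ a ∈ A, a.natAbs ≤ N) →
          (N : ℝ) ^ (1 / (C * Real.log (Real.log N))) ≤ A.card → Dichotomy k K ε c A) := by
  have hkr : (1 : ℝ) ≤ k := by exact_mod_cast hk
  have hk0 : (0 : ℝ) < k := by linarith
  set ε' : ℝ := min ε 1 / (2 * k) with hεd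
  have hm : 0 < min ε 1 := lt_min hε one_pos
  have hε' : 0 < ε' := by positivity
  have hke : 2 * k * ε' = min ε 1 := by
    rw [hεd]
    field_simp
  have hε1 : ε' ≤ 1 := by
    have := min_le_right ε 1
    nlinarith
  obtain ⟨L, hL1, H⟩ := Pool.Agent.T2H12.KJ.fin_main3 k hk hε' hε1
  obtain ⟨Cω, hCω, hω⟩ := Pool.Agent.T2H12.KI.omega_le
  refine ⟨L, hL1, fun C hC => ?_⟩
  have hL0 : 0 < L := by linarith
  set C₁ : ℝ := L * (1 + Cω) * C with hC₁
  obtain ⟨K₀, δ, c₀, hδ, hc₀, H⟩ := H C₁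
  set K : ℕ := max K₀ 1 with hKd
  have hK1 : 1 ≤ K := le_max_right _ _
  have hKr : (1 : ℝ) ≤ K := by exact_mod_cast hK1
  refine ⟨K, δ, c₀ / (K : ℝ) ^ k, hδ, by positivity, fun A hA h0 => ?_⟩
  have hAc : (1 : ℝ) ≤ A.card := by exact_mod_cast card_pos.2 hA
  have hA0 : (0 : ℝ) < A.card := by linarith
  have hlog : 0 ≤ Real.log A.card := Real.log_nonneg hAc
  have hCC : C * Real.log A.card ≤ C₁ * Real.log A.card := by
    refine mul_le_mul_of_nonneg_right ?_ hlog
    rw [hC₁]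
    have h1 : 0 < L * Cω * C := by positivity
    nlinarith
  have hLC : L * C * Real.log A.card ≤ C₁ * Real.log A.card := by
    refine mul_le_mul_of_nonneg_right ?_ hlog
    rw [hC₁]
    have h1 : 0 < L * Cω * C := by positivity
    nlinarith
  -- the general case
  have main : ∀ P Q : Finset ℕ, P ⊆ Q → (∀ q ∈ Q, q.Prime) → (∀ p, Popular L A p → p ∈ Q) →
      (P.card : ℝ) ≤ C₁ * Real.log A.card →
      (∀ a ∈ A, (Pool.Agent.T2H12.KJ.nq P Q A a : ℝ) ≤ (A.card : ℝ) ^ δ) →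
      Dichotomy k K ε (c₀ / (K : ℝ) ^ k) A := by
    intro P Q hPQ hQ hpop hP hnq
    refine dichotomy_of' hk hε' (by rw [hke]; exact min_le_left _ _) hK1 hc₀ hA ?_
    refine (H A P Q hA h0 hQ hPQ hP hnq ?_).imp (fun h => h) fun h B hB => ?_
    swap
    · obtain ⟨l, hl, h3⟩ := h B hB
      exact ⟨l, fun i => ⟨(hl i).1, (hl i).2.trans (le_max_left _ _)⟩, h3⟩
    intro p hp hpQ
    by_contra hcon
    push Not at hcon
    exact hpQ (hpop p ⟨hp, hcon⟩)
  -- bounded rank
  have main2 : ∀ Q : Finset ℕ, (∀ q ∈ Q, q.Prime) → (∀ p, Popular L A p → p ∈ Q) →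
      (Pool.Agent.T2H12.KI.rk Q A : ℝ) ≤ C₁ * Real.log A.card → Dichotomy k K ε (c₀ / (K : ℝ) ^ k) A := by
    intro Q hQ hpop hrk
    obtain ⟨P, hP, hPQ, hdt⟩ := Pool.Agent.T2H12.KI.exists_dt2 Q A
    refine main P Q hPQ hQ hpop (le_trans (by exact_mod_cast hP) hrk) fun a ha => ?_
    have h1 : Pool.Agent.T2H12.KJ.nq P Q A a ≤ 1 := by
      unfold Pool.Agent.T2H12.KJ.nq
      rw [card_le_one]
      intro u hu v hv
      obtain ⟨x, hx, rfl⟩ := mem_image.1 hu
      obtain ⟨y, hy, rfl⟩ := mem_image.1 hv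
      obtain ⟨hx1, hx2⟩ := mem_filter.1 hx
      obtain ⟨hy1, hy2⟩ := mem_filter.1 hy
      funext q
      exact hdt x hx1 y hy1 (fun p hp => (hx2 p hp).trans (hy2 p hp).symm) q q.2
    have h2 : (Pool.Agent.T2H12.KJ.nq P Q A a : ℝ) ≤ 1 := by exact_mod_cast h1
    exact h2.trans (Real.one_le_rpow hAc hδ.le)
  -- few popular primes
  have main3 : ∀ Q : Finset ℕ, (∀ p, Popular L A p → p ∈ Q) →
      (Q.card : ℝ) ≤ C₁ * Real.log A.card → Dichotomy k K ε (c₀ / (K : ℝ) ^ k) A := by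
    intro Q hpop hQ
    refine main2 (Q.filter Nat.Prime) (fun q hq => (mem_filter.1 hq).2)
      (fun p hp => mem_filter.2 ⟨hpop p hp, hp.1⟩) (le_trans ?_ hQ)
    exact_mod_cast (Pool.Agent.T2H12.KI.rk_le_card _ A).trans (card_filter_le _ _)
  -- few prime factors
  have main4 : L * ∑ a ∈ A, (a.natAbs.primeFactors.card : ℝ) ≤ C₁ * A.card * Real.log A.card →
      Dichotomy k K ε (c₀ / (K : ℝ) ^ k) A := by
    intro hsum
    set U : Finset ℕ := A.biUnion fun a => a.natAbs.primeFactors with hU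
    have hdiv : ∀ p : ℕ, p.Prime → (A.filter fun a => a.natAbs.factorization p ≠ 0) =
        A.filter fun a : ℤ => p ∣ a.natAbs := by
      intro p hp
      refine filter_congr fun a ha => ?_
      have ha0 : a ≠ 0 := fun h => h0 (h ▸ ha)
      have ha1 : a.natAbs ≠ 0 := Int.natAbs_ne_zero.2 ha0
      constructor
      · intro h
        exact Nat.dvd_of_factorization_pos h
      · intro h
        exact (hp.factorization_pos_of_dvd ha1 h).ne'
    set Q : Finset ℕ := U.filter fun p =>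
      (A.card : ℝ) < L * ((A.filter fun a : ℤ => p ∣ a.natAbs).card : ℝ) with hQd
    have hQ : ∀ q ∈ Q, q.Prime := by
      intro q hq
      obtain ⟨a, _, ha⟩ := mem_biUnion.1 (mem_filter.1 hq).1
      exact Nat.prime_of_mem_primeFactors ha
    refine main3 Q ?_ ?_
    · intro p hp
      have h1 := hp.2 0
      rw [hdiv p hp.1] at h1
      refine mem_filter.2 ⟨?_, h1⟩
      have h2 : (A.filter fun a : ℤ => p ∣ a.natAbs).Nonempty := by
        rw [nonempty_iff_ne_empty]
        intro h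
        rw [h] at h1
        simp only [card_empty, Nat.cast_zero, mul_zero] at h1
        linarith
      obtain ⟨a, ha⟩ := h2
      obtain ⟨ha, hpa⟩ := mem_filter.1 ha
      have ha0 : a ≠ 0 := fun h => h0 (h ▸ ha)
      exact mem_biUnion.2 ⟨a, ha, Nat.mem_primeFactors.2 ⟨hp.1, hpa, Int.natAbs_ne_zero.2 ha0⟩⟩
    · have hswap : ∑ p ∈ Q, ((A.filter fun a : ℤ => p ∣ a.natAbs).card : ℝ) ≤
          ∑ a ∈ A, (a.natAbs.primeFactors.card : ℝ) := by
        have h1 : ∑ p ∈ Q, (A.filter fun a : ℤ => p ∣ a.natAbs).card =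
            ∑ a ∈ A, (Q.filter fun p => p ∣ a.natAbs).card := by
          simp only [card_filter]
          exact sum_comm
        have h2 : ∑ p ∈ Q, (A.filter fun a : ℤ => p ∣ a.natAbs).card ≤
            ∑ a ∈ A, a.natAbs.primeFactors.card := by
          rw [h1]
          refine sum_le_sum fun a ha => card_le_card fun p hp => ?_
          obtain ⟨hp1, hp2⟩ := mem_filter.1 hp
          have ha0 : a ≠ 0 := fun h => h0 (h ▸ ha)
          exact Nat.mem_primeFactors.2 ⟨hQ p hp1, hp2, Int.natAbs_ne_zero.2 ha0⟩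
        exact_mod_cast h2
      have h2 : (Q.card : ℝ) * A.card ≤
          ∑ p ∈ Q, L * ((A.filter fun a : ℤ => p ∣ a.natAbs).card : ℝ) := by
        rw [← nsmul_eq_mul, ← sum_const]
        exact sum_le_sum fun p hp => (mem_filter.1 hp).2.le
      rw [← mul_sum] at h2
      have h3 : (Q.card : ℝ) * A.card ≤ (C₁ * Real.log A.card) * A.card := by
        refine (h2.trans (mul_le_mul_of_nonneg_left hswap hL0.le)).trans (hsum.trans (le_of_eq ?_))
        ring
      exact le_of_mul_le_mul_right h3 hA0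
  refine ⟨?_, ?_, ?_, ?_, ?_⟩
  · intro P Q hPQ hQ hpop hP hv
    refine main P Q hPQ hQ hpop (hP.trans hCC) fun a ha => le_trans (le_of_eq ?_) (hv a ha)
    unfold Pool.Agent.T2H12.KJ.nq
    congr 2
    congr 1
    refine filter_congr fun b _ => ?_
    rw [funext_iff]
    constructor
    · intro h p
      exact h p.1 p.2
    · intro h p hp
      exact h ⟨p, hp⟩
  · intro Q hQ hpop hr
    exact main2 Q hQ hpop (le_trans (le_of_eq rfl) (hr.trans hCC))
  · intro Q hpop hQ
    exact main3 Q hpop (hQ.trans hCC)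
  · intro hsum
    refine main4 ((mul_le_mul_of_nonneg_left hsum hL0.le).trans ?_)
    have h1 := mul_le_mul_of_nonneg_right hLC hA0.le
    linarith
  · intro N hN hAN hbig
    refine main4 ?_
    have h1 := Pool.Agent.T2H12.KI.sum_omega_le hCω hω (c₀ := 1 / C) (by positivity) N A hN
      (fun a ha => ⟨fun h => h0 (h ▸ ha), hAN a ha⟩) (by rwa [div_div])
    refine (mul_le_mul_of_nonneg_left h1 hL0.le).trans ?_
    have h2 : L * (Cω / (1 / C) * A.card * Real.log A.card) =
        L * Cω * C * (A.card * Real.log A.card) := by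
      field_simp
    rw [h2, mul_assoc C₁]
    refine mul_le_mul_of_nonneg_right ?_ (by positivity)
    rw [hC₁]
    nlinarith [mul_pos hL0 hC]

end Pool.Agent.Results.MP_120218_co.LogManyPopularPrimes
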