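import Mathlib
import Pool.Agent.T2H12.KR.Ratio

/-!
# MP_120218_co: sums and products of `k` elements of sets with many small ratios

`X` is any finite non-empty set of integers of which at least `|X|^(1-δ)` elements `x` have at least
`K` elements `y` of `X` for which `y / x` is a quotient of two integers of absolute value at most
`|X|^δ`. Then `X` has at least `c |X|^(k-ε)` products of `k` elements, or the sums of `m` elements of
`X` and an element of `B` are at least `c |X|^(m-ε) |B|^(1-ε)` in number, for all sets `B`.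
-/

set_option autoImplicit false

namespace Pool.Agent.Results.MP_120218_co.ManySmallRatios

open Finset
open scoped Classical

/-- The set of all products of `k` elements of `A`. -/
def prodSet (k : ℕ) (A : Finset ℤ) : Finset ℤ :=
  (Fintype.piFinset fun _ : Fin k => A).image fun f => ∏ i, f i

/-- The set of all sums of `m` elements of `X` and an element of `B`. -/
def sumPlus (m : ℕ) (X B : Finset ℤ) : Finset ℤ :=
  ((Fintype.piFinset fun _ : Fin m => X) ×ˢ B).image fun s => ∑ i, s.1 i + s.2

/-- The set of the elements `y` of `X` with `p y = q x` for some non-zero integers `p` and `q` of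
absolute value at most `M`. -/
noncomputable def nearSet (M : ℝ) (X : Finset ℤ) (x : ℤ) : Finset ℤ :=
  X.filter fun y => ∃ p q : ℤ, p ≠ 0 ∧ q ≠ 0 ∧ |(p : ℝ)| ≤ M ∧ |(q : ℝ)| ≤ M ∧ p * y = q * x

theorem result (k m : ℕ) (hk : 1 ≤ k) (hm : 1 ≤ m) (ε : ℝ) (hε : 0 < ε) :
    ∃ (K : ℕ) (δ c : ℝ), 0 < δ ∧ 0 < c ∧ ∀ X : Finset ℤ, X.Nonempty →
      (X.card : ℝ) ^ (1 - δ) ≤
        ((X.filter fun x => K ≤ (nearSet ((X.card : ℝ) ^ δ) X x).card).card : ℝ) →
      c * (X.card : ℝ) ^ ((k : ℝ) - ε) ≤ (prodSet k X).card ∨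
      ∀ B : Finset ℤ, B.Nonempty →
        c * (X.card : ℝ) ^ ((m : ℝ) - ε) * (B.card : ℝ) ^ (1 - ε) ≤ (sumPlus m X B).card :=
  Pool.Agent.T2H12.KR.ratio_main' k m hk hm hε

end Pool.Agent.Results.MP_120218_co.ManySmallRatios
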