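import Mathlib
import Pool.Agent.T2H12.KR.Pert

/-!
# MP_120218_co: sums and products of `k` elements, for almost all dilations of the elements of a set

`A` is any finite non-empty set of integers and `H` any set of at least `K` non-zero integers of
absolute value at most `|A|^δ`. For all but an exponentially small proportion of the functions
`l : A → H` the set `X = {l(a) a : a ∈ A}`, and every set between this set and `H A`, has at least
`c |X|^(k-ε)` products of `k` elements or at least `c |X|^(m-ε)` sums of `m` elements.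
-/

set_option autoImplicit false

namespace Pool.Agent.T2H12.Old.RandomDilationsFixedPower

open Finset
open scoped Classical

/-- The set of all products of `k` elements of `A`. -/
def prodSet (k : ℕ) (A : Finset ℤ) : Finset ℤ :=
  (Fintype.piFinset fun _ : Fin k => A).image fun f => ∏ i, f i

/-- The set of all sums of `k` elements of `A`. -/
def sumSet (k : ℕ) (A : Finset ℤ) : Finset ℤ :=
  (Fintype.piFinset fun _ : Fin k => A).image fun f => ∑ i, f i

/-- The set of all products `h a`, `h ∈ H`, `a ∈ A`. -/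
def mulSet (H A : Finset ℤ) : Finset ℤ := (H ×ˢ A).image fun s => s.1 * s.2

/-- The functions `l : A → H` for which some set `X` with `{l(a) a : a ∈ A} ⊆ X ⊆ H A` has fewer than
`c |X|^(k-ε)` products of `k` elements and fewer than `c |X|^(m-ε)` sums of `m` elements. -/
noncomputable def exceptional (k m : ℕ) (ε c : ℝ) (A H : Finset ℤ) : Finset (A → ℤ) :=
  (Fintype.piFinset fun _ : A => H).filter fun l => ∃ X : Finset ℤ,
    (univ.image fun a : A => l a * a) ⊆ X ∧ X ⊆ mulSet H A ∧
    ((prodSet k X).card : ℝ) < c * (X.card : ℝ) ^ ((k : ℝ) - ε) ∧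
    ((sumSet m X).card : ℝ) < c * (X.card : ℝ) ^ ((m : ℝ) - ε)

theorem result (k m : ℕ) (hk : 1 ≤ k) (hm : 1 ≤ m) (ε : ℝ) (hε : 0 < ε) (hε1 : ε ≤ 1) :
    ∃ (K : ℕ) (δ c : ℝ), 1 ≤ K ∧ 0 < δ ∧ 0 < c ∧ ∀ A : Finset ℤ, A.Nonempty →
      ∀ H : Finset ℤ, (0 : ℤ) ∉ H → (∀ h ∈ H, |(h : ℝ)| ≤ (A.card : ℝ) ^ δ) → K ≤ H.card →
        ((exceptional k m ε c A H).card : ℝ) ≤
          Real.exp (-(c * (A.card : ℝ) ^ (1 - ε))) * (H.card : ℝ) ^ A.card :=
  Pool.Agent.T2H12.KR.pert_main k m hk hm hε hε1

end Pool.Agent.T2H12.Old.RandomDilationsFixedPower
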