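import Mathlib
import Pool.Agent.T2H83.ES.Cover

/-!
# The `k`-fold Erdős–Szemerédi conjecture for integers with small digits in large bases

`Small m H b x` (file `Pool/Agent/Y806/SD/D.lean`): `x = ∑_{i < m} a_i b ^ i` for integers `a_i` with
`|a_i| ≤ H`. `err m H = √m (log (2 m)) ^ 2 + (log (2 m)) ^ 3 log H` (the same file).
`prodSet k A` is the set of all products of `k` elements of `A`
(file `Pool/Agent/T2H83/ES/Cover.lean`).
-/

set_option autoImplicit false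

open Finset

namespace Pool.Agent.Results.MP_120218_co.SmallDigitsLargeBase

open Pool.Agent.Y806.SD Pool.Agent.T2H83.ES

/-- **`k`-fold products of integers with small digits in large bases.** -/
theorem result :
    -- (1) products of the `k`-tuples in an arbitrary set of `k`-tuples
    (∀ k : ℕ, 1 ≤ k → ∃ K : ℝ, 0 < K ∧ ∀ m : ℕ, 1 ≤ m → ∀ H : ℕ, 1 ≤ H → ∀ b : ℤ,
      2 * m ^ (k - 1) * H ^ k < b → ∀ G : Finset (Fin k → ℤ),
      (∀ x ∈ G, ∀ i, Small m H b (x i) ∧ x i ≠ 0) →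
      (G.card : ℝ) ≤ Real.exp (K * err m H) * (G.image fun x => ∏ i, x i).card) ∧
    -- (2) sets with a subset covered by `T` dilates, with different `m_j`, `H_j`, `b_j`
    (∀ k : ℕ, 1 ≤ k → ∃ K : ℝ, 0 < K ∧ ∀ (T : ℕ) (E : ℝ) (lam : Fin T → ℚ)
      (b : Fin T → ℤ) (m H : Fin T → ℕ), (∀ j, 1 ≤ m j) → (∀ j, 1 ≤ H j) →
      (∀ j, 2 * (m j) ^ (k - 1) * (H j) ^ k < b j) → (∀ j, err (m j) (H j) ≤ E) →
      ∀ A B : Finset ℤ, B ⊆ A →
      (∀ x ∈ B, ∃ j, ∃ y : ℤ, Small (m j) (H j) (b j) y ∧ (x : ℚ) = lam j * y) →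
      (B.card : ℝ) ^ k ≤ T ^ k * Real.exp (K * E) * (prodSet k A).card) ∧
    -- (3) the exponent of the conjecture
    (∀ k : ℕ, 1 ≤ k → ∀ ε : ℝ, 0 < ε → ∃ δ : ℝ, 0 < δ ∧
      ∀ A B : Finset ℤ, A.Nonempty → B ⊆ A → (A.card : ℝ) ^ (1 - δ) ≤ B.card →
      ∀ (T : ℕ) (lam : Fin T → ℚ) (b : Fin T → ℤ) (m H : Fin T → ℕ),
      (T : ℝ) ≤ (A.card : ℝ) ^ δ → (∀ j, 1 ≤ m j) → (∀ j, 1 ≤ H j) →
      (∀ j, 2 * (m j) ^ (k - 1) * (H j) ^ k < b j) →
      (∀ j, err (m j) (H j) ≤ δ * Real.log A.card) →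
      (∀ x ∈ B, ∃ j, ∃ y : ℤ, Small (m j) (H j) (b j) y ∧ (x : ℚ) = lam j * y) →
      (A.card : ℝ) ^ ((k : ℝ) - ε) ≤
        max
          (((Fintype.piFinset (fun _ : Fin k => A)).image
              (fun f : Fin k → ℤ => ∑ i, f i)).card : ℝ)
          (((Fintype.piFinset (fun _ : Fin k => A)).image
              (fun f : Fin k → ℤ => ∏ i, f i)).card : ℝ)) ∧
    -- (4) bounded digits: all sets with at least `K exp (m ^ (1/2 + ε))` elements
    (∀ k : ℕ, 1 ≤ k → ∀ H : ℕ, 1 ≤ H → ∀ ε : ℝ, 0 < ε → ∃ K : ℝ, 0 < K ∧ ∀ m : ℕ, 1 ≤ m →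
      ∀ b : ℤ, 2 * m ^ (k - 1) * H ^ k < b → ∀ A : Finset ℤ, (∀ x ∈ A, Small m H b x) →
      K * Real.exp ((m : ℝ) ^ (1 / 2 + ε)) ≤ A.card →
      (A.card : ℝ) ^ ((k : ℝ) - ε) ≤ (prodSet k A).card) := by
  refine ⟨?_, ?_, ?_, ?_⟩
  · intro k hk
    obtain ⟨k, rfl⟩ : ∃ k', k = k' + 1 := ⟨k - 1, by omega⟩
    simpa only [Nat.add_sub_cancel] using tuples k
  · intro k hk
    obtain ⟨k, rfl⟩ : ∃ k', k = k' + 1 := ⟨k - 1, by omega⟩
    simpa only [Nat.add_sub_cancel] using coveredk k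
  · intro k hk ε hε
    obtain ⟨k, rfl⟩ : ∃ k', k = k' + 1 := ⟨k - 1, by omega⟩
    obtain ⟨δ, hδ, h⟩ := conj k ε hε
    refine ⟨δ, hδ, ?_⟩
    intro A B hA hBA hB T lam b m H hT hm hH hb hE hcov
    refine le_max_of_le_right ?_
    rw [Nat.add_sub_cancel] at hb
    exact h A B hA hBA hB T lam b m H hT hm hH hb hE hcov
  · intro k hk H hH ε hε
    obtain ⟨k, rfl⟩ : ∃ k', k = k' + 1 := ⟨k - 1, by omega⟩
    obtain ⟨K, hK, hcov⟩ := coveredk k
    obtain ⟨B, hB, herr⟩ := err_asymp H K ε hε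
    refine ⟨Real.exp (B / ε), Real.exp_pos _, ?_⟩
    intro m hm b hb A hA hcard
    rw [Nat.add_sub_cancel] at hb
    have h1 := hcov 1 (err m H) (fun _ => 1) (fun _ => b) (fun _ => m) (fun _ => H)
      (fun _ => hm) (fun _ => hH) (fun _ => hb) (fun _ => le_rfl) A A (Finset.Subset.refl _)
      (fun x hx => ⟨0, x, hA x hx, by simp⟩)
    have hpos : 0 < (A.card : ℝ) := lt_of_lt_of_le (by positivity) hcard
    have h2 : B / ε + (m : ℝ) ^ (1 / 2 + ε) ≤ Real.log A.card := by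
      rw [← Real.log_exp (B / ε + (m : ℝ) ^ (1 / 2 + ε))]
      apply Real.log_le_log (Real.exp_pos _)
      rw [Real.exp_add]; exact hcard
    have h3 : Real.exp (K * err m H) ≤ (A.card : ℝ) ^ ε := by
      rw [Real.rpow_def_of_pos hpos]
      apply Real.exp_le_exp.mpr
      have h4 := herr m hm
      have h5 : ε * (B / ε + (m : ℝ) ^ (1 / 2 + ε)) ≤ ε * Real.log A.card := by gcongr
      have h6 : ε * (B / ε) = B := by field_simp
      linarith
    have h4 : (A.card : ℝ) ^ (((k + 1 : ℕ) : ℝ) - ε) * (A.card : ℝ) ^ ε ≤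
        (prodSet (k + 1) A).card * (A.card : ℝ) ^ ε := by
      rw [← Real.rpow_add hpos, sub_add_cancel, Real.rpow_natCast]
      have h5 : (A.card : ℝ) ^ (k + 1) ≤
          Real.exp (K * err m H) * (prodSet (k + 1) A).card := by
        simpa using h1
      refine h5.trans ?_
      rw [mul_comm]
      gcongr
    exact le_of_mul_le_mul_right h4 (Real.rpow_pos_of_pos hpos _)

end Pool.Agent.Results.MP_120218_co.SmallDigitsLargeBase
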